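import Mathlib

/-!
Counting the integral points at which the value of a polynomial in several variables is divisible
only by small primes and by the primes in a small set (helper file).
-/

set_option autoImplicit false

namespace Pool.Agent.R424.MP

open Finset

/-- The completely multiplicative function `n ^ (-δ)`. -/
noncomputable def pw (δ : ℝ) : ℕ →* ℝ where
  toFun n := (n : ℝ) ^ (-δ)
  map_one' := by simp
  map_mul' m n := by
    push_cast
    exact Real.mul_rpow (Nat.cast_nonneg m) (Nat.cast_nonneg n)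

/-- Rankin's bound for the number of the `s`-factored integers. -/
theorem count_factored (s : Finset ℕ) {δ : ℝ} (hδ : 0 < δ) (X : ℕ) (A : Finset ℕ)
    (hA : ∀ n ∈ A, 0 < n ∧ n ≤ X ∧ n ∈ Nat.factoredNumbers s) :
    (A.card : ℝ) ≤ (X : ℝ) ^ δ * ∏ p ∈ s with p.Prime, (1 - (p : ℝ) ^ (-δ))⁻¹ := by
  classical
  have h : ∀ {p : ℕ}, p.Prime → ‖pw δ p‖ < 1 := by
    intro p hp
    have h1 : (1 : ℝ) < p := by exact_mod_cast hp.one_lt
    change ‖(p : ℝ) ^ (-δ)‖ < 1
    rw [Real.norm_of_nonneg (Real.rpow_nonneg (by linarith) _)]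
    exact Real.rpow_lt_one_of_one_lt_of_neg h1 (by linarith)
  obtain ⟨h1, h2⟩ := EulerProduct.summable_and_hasSum_factoredNumbers_prod_filter_prime_geometric h s
  have h3 : ∑ n ∈ A.attach, pw δ (⟨n.1, (hA n.1 n.2).2.2⟩ : Nat.factoredNumbers s) ≤
      ∏ p ∈ s with p.Prime, (1 - pw δ p)⁻¹ := by
    let φ : {n // n ∈ A} ↪ Nat.factoredNumbers s :=
      ⟨fun n => ⟨n.1, (hA n.1 n.2).2.2⟩, fun a b hab => Subtype.ext
        (congrArg (fun x : Nat.factoredNumbers s => (x : ℕ)) hab)⟩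
    have h4 := sum_le_hasSum (A.attach.map φ)
      (fun n _ => Real.rpow_nonneg (Nat.cast_nonneg _) _) h2
    rw [Finset.sum_map] at h4
    exact h4
  have h5 : (A.card : ℝ) * (X : ℝ) ^ (-δ) ≤
      ∑ n ∈ A.attach, pw δ (⟨n.1, (hA n.1 n.2).2.2⟩ : Nat.factoredNumbers s) := by
    calc (A.card : ℝ) * (X : ℝ) ^ (-δ) = ∑ n ∈ A.attach, (X : ℝ) ^ (-δ) := by
          rw [Finset.sum_const, Finset.card_attach, nsmul_eq_mul]
      _ ≤ _ := by
          refine Finset.sum_le_sum fun n _ => ?_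
          obtain ⟨h6, h7, -⟩ := hA n.1 n.2
          change (X : ℝ) ^ (-δ) ≤ ((n.1 : ℕ) : ℝ) ^ (-δ)
          exact Real.rpow_le_rpow_of_nonpos (by exact_mod_cast h6) (by exact_mod_cast h7)
            (by linarith)
  rcases Nat.eq_zero_or_pos X with hX | hX
  · have h6 : A = ∅ := by
      rw [Finset.eq_empty_iff_forall_notMem]
      intro n hn
      obtain ⟨h7, h8, -⟩ := hA n hn
      omega
    rw [h6, Finset.card_empty, Nat.cast_zero]
    refine mul_nonneg (Real.rpow_nonneg (Nat.cast_nonneg _) _) (Finset.prod_nonneg fun p hp => ?_)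
    have h7 := h (Finset.mem_filter.1 hp).2
    rw [inv_nonneg, sub_nonneg]
    exact (le_abs_self _).trans h7.le
  · have hXR : (0 : ℝ) < X := by exact_mod_cast hX
    have h6 := h5.trans h3
    have h7 : (A.card : ℝ) = (A.card : ℝ) * (X : ℝ) ^ (-δ) * (X : ℝ) ^ δ := by
      rw [mul_assoc, ← Real.rpow_add hXR, neg_add_cancel, Real.rpow_zero, mul_one]
    rw [h7, mul_comm]
    exact mul_le_mul_of_nonneg_left h6 (Real.rpow_nonneg hXR.le _)

/-- The Euler product over the primes up to `P₀` and the primes larger than `P₀` which divide `R`. -/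
theorem prod_bound (P₀ : ℕ) {δ : ℝ} (hδ : 0 < δ) (hP : 2 ≤ (P₀ : ℝ) ^ δ) :
    ∃ C : ℝ, 0 < C ∧ ∀ R : ℕ, 0 < R →
      ∏ p ∈ (Finset.range (P₀ + 1) ∪ R.primeFactors) with p.Prime, (1 - (p : ℝ) ^ (-δ))⁻¹ ≤
        C * (R : ℝ) ^ δ := by
  classical
  have hpos : ∀ p : ℕ, p.Prime → 0 < 1 - (p : ℝ) ^ (-δ) := by
    intro p hp
    have h1 : (1 : ℝ) < p := by exact_mod_cast hp.one_lt
    rw [sub_pos]
    exact Real.rpow_lt_one_of_one_lt_of_neg h1 (by linarith)
  have hone : ∀ p : ℕ, p.Prime → 1 ≤ (1 - (p : ℝ) ^ (-δ))⁻¹ := by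
    intro p hp
    rw [one_le_inv₀ (hpos p hp)]
    have : 0 ≤ (p : ℝ) ^ (-δ) := Real.rpow_nonneg (Nat.cast_nonneg _) _
    linarith
  refine ⟨∏ p ∈ Finset.range (P₀ + 1) with p.Prime, (1 - (p : ℝ) ^ (-δ))⁻¹,
    Finset.prod_pos fun p hp => inv_pos.2 (hpos p (Finset.mem_filter.1 hp).2), fun R hR => ?_⟩
  let S : Finset ℕ := R.primeFactors.filter fun p => P₀ < p
  have hsplit : (Finset.range (P₀ + 1) ∪ R.primeFactors).filter Nat.Prime =
      (Finset.range (P₀ + 1)).filter Nat.Prime ∪ S := by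
    ext p
    simp only [Finset.mem_filter, Finset.mem_union, Finset.mem_range, S]
    constructor
    · rintro ⟨h1 | h1, h2⟩
      · exact Or.inl ⟨h1, h2⟩
      · by_cases h3 : p < P₀ + 1
        · exact Or.inl ⟨h3, h2⟩
        · exact Or.inr ⟨h1, by omega⟩
    · rintro (⟨h1, h2⟩ | ⟨h1, h2⟩)
      · exact ⟨Or.inl h1, h2⟩
      · exact ⟨Or.inr h1, Nat.prime_of_mem_primeFactors h1⟩
  have hdisj : Disjoint ((Finset.range (P₀ + 1)).filter Nat.Prime) S := by
    rw [Finset.disjoint_left]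
    intro p h1 h2
    have h3 := Finset.mem_range.1 (Finset.mem_filter.1 h1).1
    have h4 := (Finset.mem_filter.1 h2).2
    omega
  rw [hsplit, Finset.prod_union hdisj]
  refine mul_le_mul_of_nonneg_left ?_ (Finset.prod_nonneg fun p hp =>
    (inv_pos.2 (hpos p (Finset.mem_filter.1 hp).2)).le)
  calc ∏ p ∈ S, (1 - (p : ℝ) ^ (-δ))⁻¹ ≤ ∏ p ∈ S, (p : ℝ) ^ δ := by
        refine Finset.prod_le_prod (fun p hp => ?_) fun p hp => ?_
        · exact (inv_pos.2 (hpos p (Nat.prime_of_mem_primeFactors (Finset.mem_filter.1 hp).1))).le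
        · obtain ⟨h1, h2⟩ := Finset.mem_filter.1 hp
          have hp' := Nat.prime_of_mem_primeFactors h1
          have h3 : (P₀ : ℝ) ^ δ ≤ (p : ℝ) ^ δ :=
            Real.rpow_le_rpow (Nat.cast_nonneg _) (by exact_mod_cast h2.le) hδ.le
          have h4 : 2 ≤ (p : ℝ) ^ δ := hP.trans h3
          have h5 : (p : ℝ) ^ (-δ) = ((p : ℝ) ^ δ)⁻¹ := Real.rpow_neg (Nat.cast_nonneg _) _
          have h6 : ((p : ℝ) ^ δ)⁻¹ ≤ 2⁻¹ := inv_anti₀ (by norm_num) h4
          have h7 : (1 - (p : ℝ) ^ (-δ))⁻¹ ≤ 2 := by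
            rw [inv_le_comm₀ (hpos p hp') (by norm_num), h5]
            linarith
          exact h7.trans h4
    _ = ((∏ p ∈ S, p : ℕ) : ℝ) ^ δ := by
        rw [Real.finsetProd_rpow]
        · push_cast
          rfl
        · intro p _
          exact Nat.cast_nonneg _
    _ ≤ (R : ℝ) ^ δ := by
        refine Real.rpow_le_rpow (Nat.cast_nonneg _) ?_ hδ.le
        have h1 : ∏ p ∈ S, p ∣ R :=
          (Finset.prod_dvd_prod_of_subset _ _ _ (Finset.filter_subset _ _)).trans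
            (Nat.prod_primeFactors_dvd R)
        exact_mod_cast Nat.le_of_dvd hR h1

/-- A function on `ℤ × ℤ^s` of polynomial growth. -/
def PolyBound {s : ℕ} (f : ℤ → (Fin s → ℤ) → ℤ) : Prop :=
  ∃ C D : ℕ, ∀ B : ℕ, 1 ≤ B → ∀ (x : ℤ) (t : Fin s → ℤ), |x| ≤ B → (∀ i, |t i| ≤ B) →
    |f x t| ≤ C * (B : ℤ) ^ D

variable {s : ℕ}

/-- The value of a polynomial at a point of `ℤ × ℤ^s`. -/
noncomputable def ev (x : ℤ) (t : Fin s → ℤ) : Polynomial (MvPolynomial (Fin s) ℤ) →+* ℤ :=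
  Polynomial.eval₂RingHom (MvPolynomial.eval t) x

theorem PolyBound.add {f g : ℤ → (Fin s → ℤ) → ℤ} (hf : PolyBound f) (hg : PolyBound g) :
    PolyBound fun x t => f x t + g x t := by
  obtain ⟨C, D, h⟩ := hf
  obtain ⟨C', D', h'⟩ := hg
  refine ⟨C + C', D + D', fun B hB x t hx ht => ?_⟩
  have hB' : (1 : ℤ) ≤ B := by exact_mod_cast hB
  have h1 : (B : ℤ) ^ D ≤ (B : ℤ) ^ (D + D') := pow_le_pow_right₀ hB' (Nat.le_add_right _ _)
  have h2 : (B : ℤ) ^ D' ≤ (B : ℤ) ^ (D + D') := pow_le_pow_right₀ hB' (Nat.le_add_left _ _)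
  calc |f x t + g x t| ≤ |f x t| + |g x t| := abs_add_le _ _
    _ ≤ C * (B : ℤ) ^ D + C' * (B : ℤ) ^ D' := add_le_add (h B hB x t hx ht) (h' B hB x t hx ht)
    _ ≤ C * (B : ℤ) ^ (D + D') + C' * (B : ℤ) ^ (D + D') := by gcongr
    _ = ((C + C' : ℕ) : ℤ) * (B : ℤ) ^ (D + D') := by
        push_cast
        ring

theorem PolyBound.mul {f g : ℤ → (Fin s → ℤ) → ℤ} (hf : PolyBound f) (hg : PolyBound g) :
    PolyBound fun x t => f x t * g x t := by
  obtain ⟨C, D, h⟩ := hf
  obtain ⟨C', D', h'⟩ := hg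
  refine ⟨C * C', D + D', fun B hB x t hx ht => ?_⟩
  calc |f x t * g x t| = |f x t| * |g x t| := abs_mul _ _
    _ ≤ (C * (B : ℤ) ^ D) * (C' * (B : ℤ) ^ D') :=
        mul_le_mul (h B hB x t hx ht) (h' B hB x t hx ht) (abs_nonneg _) (by positivity)
    _ = ((C * C' : ℕ) : ℤ) * (B : ℤ) ^ (D + D') := by
        push_cast
        ring

theorem PolyBound.const (c : ℤ) : PolyBound (s := s) fun _ _ => c :=
  ⟨c.natAbs, 0, fun B _ x t _ _ => by rw [pow_zero, mul_one, Int.natCast_natAbs]⟩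

theorem polyBound_mv (g : MvPolynomial (Fin s) ℤ) :
    PolyBound fun _ t => MvPolynomial.eval t g := by
  induction g using MvPolynomial.induction_on with
  | C a =>
    simp only [MvPolynomial.eval_C]
    exact PolyBound.const a
  | add f g hf hg =>
    simp only [map_add]
    exact hf.add hg
  | mul_X f i hf =>
    simp only [map_mul, MvPolynomial.eval_X]
    refine hf.mul ⟨1, 1, fun B hB x t hx ht => ?_⟩
    rw [Nat.cast_one, one_mul, pow_one]
    exact ht i

theorem polyBound_ev (g : Polynomial (MvPolynomial (Fin s) ℤ)) :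
    PolyBound fun x t => ev x t g := by
  induction g using Polynomial.induction_on' with
  | add f g hf hg =>
    simp only [map_add]
    exact hf.add hg
  | monomial n a =>
    have h1 : ∀ x (t : Fin s → ℤ), ev x t (Polynomial.monomial n a) =
        MvPolynomial.eval t a * x ^ n := by
      intro x t
      rw [ev, Polynomial.coe_eval₂RingHom, Polynomial.eval₂_monomial]
    simp only [h1]
    refine (polyBound_mv a).mul ?_
    clear h1
    induction n with
    | zero => simpa using PolyBound.const (s := s) 1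
    | succ n ih =>
      simp only [pow_succ]
      refine PolyBound.mul ih ⟨1, 1, fun B hB x t hx ht => ?_⟩
      rw [Nat.cast_one, one_mul, pow_one]
      exact hx

/-- The points of a box at which a nonzero polynomial vanishes. -/
theorem zeros (g : MvPolynomial (Fin s) ℤ) (hg : g ≠ 0) (B : ℕ) :
    (((Fintype.piFinset fun _ : Fin s => Finset.Icc (-(B : ℤ)) B).filter
      fun t => MvPolynomial.eval t g = 0).card : ℝ) * (2 * B + 1) ≤
      g.totalDegree * (2 * B + 1) ^ s := by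
  have h1 := MvPolynomial.schwartz_zippel_totalDegree hg (Finset.Icc (-(B : ℤ)) B)
  have hc : (Finset.Icc (-(B : ℤ)) B).card = 2 * B + 1 := by
    rw [Int.card_Icc]
    omega
  rw [hc, div_le_div_iff₀ (by positivity) (by positivity)] at h1
  exact_mod_cast h1

/-- `h` and `g` have no common factor of positive degree in the first variable. -/
def CoprimeTo (h g : Polynomial (MvPolynomial (Fin s) ℤ)) : Prop :=
  ∃ (a b : Polynomial (MvPolynomial (Fin s) ℤ)) (R : MvPolynomial (Fin s) ℤ), R ≠ 0 ∧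
    a * h + b * g = Polynomial.C R

/-- The number of the points `(x, t)` of a box at which the value of `h` is zero, or all of its prime
factors larger than `P₀` divide the value of `g`. -/
theorem count_bad (h g : Polynomial (MvPolynomial (Fin s) ℤ)) (hdeg : 0 < h.natDegree)
    (hcop : CoprimeTo h g) {ε : ℝ} (hε : 0 < ε) : ∃ P₁ : ℕ, ∀ P₀ : ℕ, P₁ ≤ P₀ → ∃ C : ℝ, 0 < C ∧
      ∀ B : ℕ, 1 ≤ B → (((Finset.Icc (-(B : ℤ)) B ×ˢ
        (Fintype.piFinset fun _ : Fin s => Finset.Icc (-(B : ℤ)) B)).filter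
          fun z : ℤ × (Fin s → ℤ) => ev z.1 z.2 h = 0 ∨ ∀ p ∈ (ev z.1 z.2 h).natAbs.primeFactors, P₀ < p →
            (p : ℤ) ∣ ev z.1 z.2 g).card : ℝ) ≤ C * (B : ℝ) ^ ((s : ℝ) + ε) := by
  classical
  obtain ⟨a, b, R, hR, hab⟩ := hcop
  obtain ⟨C₁, D₁, hC₁⟩ := polyBound_ev h
  obtain ⟨C₂, D₂, hC₂⟩ := polyBound_mv R
  -- the exponents
  set δ : ℝ := ε / (D₁ + D₂ + 1) with hδdef
  have hD : (0 : ℝ) < D₁ + D₂ + 1 := by positivity
  have hδ : 0 < δ := div_pos hε hD
  have hδε : δ * (D₁ + D₂) ≤ ε := by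
    rw [hδdef, div_mul_eq_mul_div, div_le_iff₀ hD]
    nlinarith
  obtain ⟨P₁, hP₁⟩ : ∃ P₁ : ℕ, 1 ≤ P₁ ∧ 2 ≤ (P₁ : ℝ) ^ δ := by
    obtain ⟨n, hn⟩ := exists_nat_ge ((2 : ℝ) ^ (1 / δ))
    refine ⟨max n 1, le_max_right _ _, ?_⟩
    have h1 : (2 : ℝ) ^ (1 / δ) ≤ (max n 1 : ℕ) := hn.trans (by exact_mod_cast le_max_left _ _)
    calc (2 : ℝ) = ((2 : ℝ) ^ (1 / δ)) ^ δ := by
          rw [← Real.rpow_mul (by norm_num), one_div, inv_mul_cancel₀ hδ.ne', Real.rpow_one]
      _ ≤ _ := Real.rpow_le_rpow (by positivity) h1 hδ.le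
  refine ⟨P₁, fun P₀ hP₀ => ?_⟩
  have hP : 2 ≤ (P₀ : ℝ) ^ δ :=
    hP₁.2.trans (Real.rpow_le_rpow (Nat.cast_nonneg _) (by exact_mod_cast hP₀) hδ.le)
  obtain ⟨C₀, hC₀, hprod⟩ := prod_bound P₀ hδ hP
  set lc : MvPolynomial (Fin s) ℤ := h.leadingCoeff with hlc
  have hlc0 : lc ≠ 0 := Polynomial.leadingCoeff_ne_zero.2 (fun h0 => by
    rw [h0, Polynomial.natDegree_zero] at hdeg
    exact lt_irrefl _ hdeg)
  have hR' : R * lc ≠ 0 := mul_ne_zero hR hlc0
  set d : ℕ := h.natDegree with hd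
  set K : ℝ := (R * lc).totalDegree * 3 ^ s + 3 ^ s * (d * (1 + 2 * (((C₁ : ℝ)) ^ δ *
    (C₀ * (C₂ : ℝ) ^ δ)))) + 1 with hK
  refine ⟨K, by positivity, fun B hB => ?_⟩
  have hBR : (1 : ℝ) ≤ B := by exact_mod_cast hB
  have hB0 : (0 : ℝ) < B := by linarith
  let I : Finset ℤ := Finset.Icc (-(B : ℤ)) B
  let Bx : Finset (Fin s → ℤ) := Fintype.piFinset fun _ : Fin s => I
  have hIc : (I.card : ℝ) = 2 * B + 1 := by
    have : I.card = 2 * B + 1 := by
      change (Finset.Icc (-(B : ℤ)) B).card = _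
      rw [Int.card_Icc]
      omega
    rw [this]
    push_cast
    ring
  have hBxc : (Bx.card : ℝ) = (2 * B + 1) ^ s := by
    have : Bx.card = I.card ^ s := by
      rw [Fintype.card_piFinset_const]
    rw [this]
    push_cast
    rw [hIc]
  let bad : ℤ × (Fin s → ℤ) → Prop := fun z => ev z.1 z.2 h = 0 ∨
    ∀ p ∈ (ev z.1 z.2 h).natAbs.primeFactors, P₀ < p → (p : ℤ) ∣ ev z.1 z.2 g
  let Z : Finset (Fin s → ℤ) := Bx.filter fun t => MvPolynomial.eval t (R * lc) = 0
  -- the fibres over the other points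
  have hfib : ∀ t ∈ Bx, MvPolynomial.eval t (R * lc) ≠ 0 →
      ((I.filter fun x => bad (x, t)).card : ℝ) ≤
        d * (1 + 2 * (((C₁ : ℝ)) ^ δ * (C₀ * (C₂ : ℝ) ^ δ))) * (B : ℝ) ^ ε := by
    intro t ht hne
    rw [map_mul] at hne
    have hRt : MvPolynomial.eval t R ≠ 0 := left_ne_zero_of_mul hne
    have hlct : MvPolynomial.eval t lc ≠ 0 := right_ne_zero_of_mul hne
    have htB : ∀ i, |t i| ≤ B := fun i => by
      have h1 := (Fintype.mem_piFinset.1 ht) i
      exact abs_le.2 (Finset.mem_Icc.1 h1)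
    let X : ℕ := C₁ * B ^ D₁
    let Rn : ℕ := (MvPolynomial.eval t R).natAbs
    have hRn : 0 < Rn := Int.natAbs_pos.2 hRt
    let sp : Finset ℕ := Finset.range (P₀ + 1) ∪ Rn.primeFactors
    let A : Finset ℕ := (Finset.Icc 1 X).filter fun n => n ∈ Nat.factoredNumbers sp
    have hAc : (A.card : ℝ) ≤ (X : ℝ) ^ δ * (C₀ * (Rn : ℝ) ^ δ) := by
      have h1 := count_factored sp hδ X A (fun n hn => by
        obtain ⟨h2, h3⟩ := Finset.mem_filter.1 hn
        obtain ⟨h4, h5⟩ := Finset.mem_Icc.1 h2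
        exact ⟨h4, h5, h3⟩)
      exact h1.trans (mul_le_mul_of_nonneg_left (hprod Rn hRn)
        (Real.rpow_nonneg (Nat.cast_nonneg _) _))
    -- the values
    let vals : Finset ℤ := insert 0 (A.image (fun n : ℕ => (n : ℤ)) ∪ A.image (fun n : ℕ => -(n : ℤ)))
    have hvals : (vals.card : ℝ) ≤ 1 + 2 * A.card := by
      have h1 : vals.card ≤ 1 + 2 * A.card := by
        calc vals.card ≤ _ + 1 := Finset.card_insert_le _ _
          _ ≤ (A.image (fun n : ℕ => (n : ℤ))).card + (A.image (fun n : ℕ => -(n : ℤ))).card + 1 := by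
              gcongr
              exact Finset.card_union_le _ _
          _ ≤ A.card + A.card + 1 := by gcongr <;> exact Finset.card_image_le
          _ = 1 + 2 * A.card := by ring
      exact_mod_cast h1
    let hp : Polynomial ℤ := h.map (MvPolynomial.eval t)
    have hpdeg : hp.natDegree = d := Polynomial.natDegree_map_of_leadingCoeff_ne_zero _ hlct
    have hpev : ∀ x, ev x t h = hp.eval x := by
      intro x
      rw [ev, Polynomial.coe_eval₂RingHom, Polynomial.eval_map]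
    have hsub : (I.filter fun x => bad (x, t)) ⊆
        vals.biUnion fun n => (hp - Polynomial.C n).roots.toFinset := by
      intro x hx
      obtain ⟨hxI, hxb⟩ := Finset.mem_filter.1 hx
      have hxB : |x| ≤ B := abs_le.2 (Finset.mem_Icc.1 hxI)
      refine Finset.mem_biUnion.2 ⟨ev x t h, ?_, ?_⟩
      · by_cases h0 : ev x t h = 0
        · rw [h0]
          exact Finset.mem_insert_self _ _
        have hb : ∀ p ∈ (ev x t h).natAbs.primeFactors, P₀ < p → (p : ℤ) ∣ ev x t g := by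
          rcases hxb with h1 | h1
          · exact absurd h1 h0
          · exact h1
        have hmem : (ev x t h).natAbs ∈ A := by
          refine Finset.mem_filter.2 ⟨Finset.mem_Icc.2 ⟨Int.natAbs_pos.2 h0, ?_⟩, ?_⟩
          · have h1 := hC₁ B hB x t hxB htB
            have h2 : ((ev x t h).natAbs : ℤ) ≤ (X : ℕ) := by
              rw [Int.natCast_natAbs]
              change _ ≤ ((C₁ * B ^ D₁ : ℕ) : ℤ)
              push_cast
              exact h1
            exact_mod_cast h2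
          · refine Nat.mem_factoredNumbers_of_primeFactors_subset (Int.natAbs_ne_zero.2 h0) ?_
            intro p hp
            by_cases hpP : P₀ < p
            · refine Finset.mem_union_right _ (Nat.mem_primeFactors.2
                ⟨Nat.prime_of_mem_primeFactors hp, ?_, hRn.ne'⟩)
              have h1 : (p : ℤ) ∣ ev x t g := hb p hp hpP
              have h2 : (p : ℤ) ∣ ev x t h := Int.natCast_dvd.2 (Nat.dvd_of_mem_primeFactors hp)
              have h3 : ev x t (a * h + b * g) = MvPolynomial.eval t R := by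
                rw [hab, ev, Polynomial.coe_eval₂RingHom, Polynomial.eval₂_C]
              rw [map_add, map_mul, map_mul] at h3
              have h4 : (p : ℤ) ∣ MvPolynomial.eval t R := by
                rw [← h3]
                exact (h2.mul_left _).add (h1.mul_left _)
              exact Int.natCast_dvd.1 h4
            · exact Finset.mem_union_left _ (Finset.mem_range.2 (by omega))
        refine Finset.mem_insert_of_mem (Finset.mem_union.2 ?_)
        rcases le_total 0 (ev x t h) with h5 | h5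
        · exact Or.inl (Finset.mem_image.2 ⟨_, hmem, Int.natAbs_of_nonneg h5⟩)
        · refine Or.inr (Finset.mem_image.2 ⟨_, hmem, ?_⟩)
          rw [Int.ofNat_natAbs_of_nonpos h5, neg_neg]
      · have hne0 : hp - Polynomial.C (ev x t h) ≠ 0 := by
          intro h0
          have h1 : hp = Polynomial.C (ev x t h) := sub_eq_zero.1 h0
          rw [h1, Polynomial.natDegree_C] at hpdeg
          omega
        rw [Multiset.mem_toFinset, Polynomial.mem_roots hne0, Polynomial.IsRoot,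
          Polynomial.eval_sub, Polynomial.eval_C, hpev, sub_self]
    have hroots : ∀ n : ℤ, (hp - Polynomial.C n).roots.toFinset.card ≤ d := by
      intro n
      calc (hp - Polynomial.C n).roots.toFinset.card ≤ (hp - Polynomial.C n).roots.card :=
            Multiset.toFinset_card_le _
        _ ≤ (hp - Polynomial.C n).natDegree := Polynomial.card_roots' _
        _ ≤ d := by rw [Polynomial.natDegree_sub_C, hpdeg]
    have hcard : ((I.filter fun x => bad (x, t)).card : ℝ) ≤ d * (1 + 2 * A.card) := by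
      have h1 : (I.filter fun x => bad (x, t)).card ≤ d * vals.card := by
        calc _ ≤ _ := Finset.card_le_card hsub
          _ ≤ ∑ n ∈ vals, (hp - Polynomial.C n).roots.toFinset.card := Finset.card_biUnion_le
          _ ≤ ∑ n ∈ vals, d := Finset.sum_le_sum fun n _ => hroots n
          _ = d * vals.card := by rw [Finset.sum_const, smul_eq_mul, mul_comm]
      calc ((I.filter fun x => bad (x, t)).card : ℝ) ≤ ((d * vals.card : ℕ) : ℝ) := by
            exact_mod_cast h1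
        _ = d * (vals.card : ℝ) := by push_cast; rfl
        _ ≤ d * (1 + 2 * A.card) := by gcongr
    have hRnB : (Rn : ℝ) ≤ C₂ * (B : ℝ) ^ D₂ := by
      have h1 := hC₂ B hB 0 t (by simp) htB
      have h2 : ((Rn : ℕ) : ℤ) ≤ ((C₂ * B ^ D₂ : ℕ) : ℤ) := by
        change (((MvPolynomial.eval t R).natAbs : ℕ) : ℤ) ≤ _
        rw [Int.natCast_natAbs]
        push_cast
        exact h1
      exact_mod_cast h2
    have hXB : (X : ℝ) = C₁ * (B : ℝ) ^ D₁ := by
      change ((C₁ * B ^ D₁ : ℕ) : ℝ) = _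
      push_cast
      rfl
    have hpow : (A.card : ℝ) ≤ ((C₁ : ℝ) ^ δ * (C₀ * (C₂ : ℝ) ^ δ)) * (B : ℝ) ^ ε := by
      calc (A.card : ℝ) ≤ (X : ℝ) ^ δ * (C₀ * (Rn : ℝ) ^ δ) := hAc
        _ ≤ (C₁ * (B : ℝ) ^ D₁) ^ δ * (C₀ * (C₂ * (B : ℝ) ^ D₂) ^ δ) := by
            rw [hXB]
            gcongr
        _ = ((C₁ : ℝ) ^ δ * (C₀ * (C₂ : ℝ) ^ δ)) * (((B : ℝ) ^ D₁) ^ δ * ((B : ℝ) ^ D₂) ^ δ) := by
            rw [Real.mul_rpow (Nat.cast_nonneg _) (by positivity),
              Real.mul_rpow (Nat.cast_nonneg _) (by positivity)]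
            ring
        _ ≤ ((C₁ : ℝ) ^ δ * (C₀ * (C₂ : ℝ) ^ δ)) * (B : ℝ) ^ ε := by
            have h1 : ((B : ℝ) ^ D₁) ^ δ * ((B : ℝ) ^ D₂) ^ δ = (B : ℝ) ^ (δ * (D₁ + D₂)) := by
              rw [← Real.rpow_natCast, ← Real.rpow_natCast, ← Real.rpow_mul hB0.le,
                ← Real.rpow_mul hB0.le, ← Real.rpow_add hB0]
              congr 1
              ring
            rw [h1]
            gcongr
    have hBε : (1 : ℝ) ≤ (B : ℝ) ^ ε := Real.one_le_rpow hBR hε.le
    calc _ ≤ (d : ℝ) * (1 + 2 * A.card) := hcard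
      _ ≤ d * (1 * (B : ℝ) ^ ε + 2 * (((C₁ : ℝ) ^ δ * (C₀ * (C₂ : ℝ) ^ δ)) * (B : ℝ) ^ ε)) := by
          gcongr
          linarith
      _ = _ := by ring
  -- the sum
  have hcover : ((I ×ˢ Bx).filter bad) ⊆ (I ×ˢ Z) ∪
      (Bx.filter fun t => MvPolynomial.eval t (R * lc) ≠ 0).biUnion fun t =>
        (I.filter fun x => bad (x, t)).image fun x => (x, t) := by
    rintro ⟨x, t⟩ hz
    obtain ⟨h1, h2⟩ := Finset.mem_filter.1 hz
    obtain ⟨h3, h4⟩ := Finset.mem_product.1 h1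
    by_cases h5 : MvPolynomial.eval t (R * lc) = 0
    · exact Finset.mem_union_left _ (Finset.mem_product.2 ⟨h3, Finset.mem_filter.2 ⟨h4, h5⟩⟩)
    · refine Finset.mem_union_right _ (Finset.mem_biUnion.2 ⟨t, Finset.mem_filter.2 ⟨h4, h5⟩, ?_⟩)
      exact Finset.mem_image.2 ⟨x, Finset.mem_filter.2 ⟨h3, h2⟩, rfl⟩
  have hZ : (((I ×ˢ Z).card : ℕ) : ℝ) ≤ (R * lc).totalDegree * (2 * B + 1) ^ s := by
    rw [Finset.card_product]
    push_cast
    rw [hIc, mul_comm]
    exact zeros (R * lc) hR' B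
  have h3B : (2 * (B : ℝ) + 1) ^ s ≤ 3 ^ s * (B : ℝ) ^ s := by
    rw [← mul_pow]
    gcongr
    linarith
  set E : ℝ := d * (1 + 2 * (((C₁ : ℝ)) ^ δ * (C₀ * (C₂ : ℝ) ^ δ))) with hE
  have hE0 : 0 ≤ E := by positivity
  have hsum : ((((Bx.filter fun t => MvPolynomial.eval t (R * lc) ≠ 0).biUnion fun t =>
        (I.filter fun x => bad (x, t)).image fun x => (x, t)).card : ℕ) : ℝ) ≤
      (2 * B + 1) ^ s * (E * (B : ℝ) ^ ε) := by
    calc _ ≤ ((∑ t ∈ (Bx.filter fun t => MvPolynomial.eval t (R * lc) ≠ 0),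
          ((I.filter fun x => bad (x, t)).image fun x => (x, t)).card : ℕ) : ℝ) := by
          exact_mod_cast Finset.card_biUnion_le
      _ = ∑ t ∈ (Bx.filter fun t => MvPolynomial.eval t (R * lc) ≠ 0),
          ((((I.filter fun x => bad (x, t)).image fun x => (x, t)).card : ℕ) : ℝ) := by push_cast; rfl
      _ ≤ ∑ t ∈ (Bx.filter fun t => MvPolynomial.eval t (R * lc) ≠ 0), E * (B : ℝ) ^ ε := by
          refine Finset.sum_le_sum fun t ht => ?_
          obtain ⟨h1, h2⟩ := Finset.mem_filter.1 ht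
          refine le_trans ?_ (hfib t h1 h2)
          exact_mod_cast Finset.card_image_le
      _ = ((Bx.filter fun t => MvPolynomial.eval t (R * lc) ≠ 0).card : ℝ) *
          (E * (B : ℝ) ^ ε) := by rw [Finset.sum_const, nsmul_eq_mul]
      _ ≤ (Bx.card : ℝ) * (E * (B : ℝ) ^ ε) := by
          gcongr
          exact Finset.filter_subset _ _
      _ = _ := by rw [hBxc]
  have hBε : (1 : ℝ) ≤ (B : ℝ) ^ ε := Real.one_le_rpow hBR hε.le
  have hBs : (B : ℝ) ^ ((s : ℝ) + ε) = (B : ℝ) ^ s * (B : ℝ) ^ ε := by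
    rw [Real.rpow_add hB0, Real.rpow_natCast]
  calc _ ≤ (((I ×ˢ Z) ∪
      (Bx.filter fun t => MvPolynomial.eval t (R * lc) ≠ 0).biUnion fun t =>
        (I.filter fun x => bad (x, t)).image fun x => (x, t)).card : ℝ) := by
        exact_mod_cast Finset.card_le_card hcover
    _ ≤ (((I ×ˢ Z).card + ((Bx.filter fun t => MvPolynomial.eval t (R * lc) ≠ 0).biUnion fun t =>
        (I.filter fun x => bad (x, t)).image fun x => (x, t)).card : ℕ) : ℝ) := by
        exact_mod_cast Finset.card_union_le _ _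
    _ ≤ (R * lc).totalDegree * (2 * B + 1) ^ s + (2 * B + 1) ^ s * (E * (B : ℝ) ^ ε) := by
        push_cast
        exact add_le_add (by exact_mod_cast hZ) hsum
    _ ≤ (R * lc).totalDegree * (3 ^ s * (B : ℝ) ^ s) * (B : ℝ) ^ ε +
        (3 ^ s * (B : ℝ) ^ s) * (E * (B : ℝ) ^ ε) := by
        have h1 : ((R * lc).totalDegree : ℝ) * (2 * B + 1) ^ s ≤
            (R * lc).totalDegree * (3 ^ s * (B : ℝ) ^ s) * (B : ℝ) ^ ε := by
          calc ((R * lc).totalDegree : ℝ) * (2 * B + 1) ^ s ≤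
                (R * lc).totalDegree * (3 ^ s * (B : ℝ) ^ s) := by gcongr
            _ ≤ _ := le_mul_of_one_le_right (by positivity) hBε
        gcongr
    _ = ((R * lc).totalDegree * 3 ^ s + 3 ^ s * E) * (B : ℝ) ^ ((s : ℝ) + ε) := by
        rw [hBs]
        ring
    _ ≤ K * (B : ℝ) ^ ((s : ℝ) + ε) := by
        gcongr
        rw [hK]
        linarith

end Pool.Agent.R424.MP
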