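import Pool.Agent.R424.MP.Cnt
import Pool.Agent.R424.PT.Cnt

/-!
The number of the points of a box at which a linear form is divisible exactly once by no large prime
number which does not divide the value of another polynomial (helper file).
-/

set_option autoImplicit false

namespace Pool.Agent.R424.MP

variable {s : ℕ}

/-- `h = a₀ t₀ + a₁ t₁ + … + a_s t_s + a'`, a polynomial of degree one with integral coefficients and
`a₀ ≠ 0`. -/
def IsLin (h : Polynomial (MvPolynomial (Fin s) ℤ)) : Prop :=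
  ∃ (a₀ : ℤ) (a : Fin s → ℤ) (a' : ℤ), a₀ ≠ 0 ∧
    h = Polynomial.C (MvPolynomial.C a₀) * Polynomial.X +
      Polynomial.C (∑ i, MvPolynomial.C (a i) * MvPolynomial.X i + MvPolynomial.C a')

theorem ev_lin (a₀ : ℤ) (a : Fin s → ℤ) (a' : ℤ) (x : ℤ) (t : Fin s → ℤ) :
    ev x t (Polynomial.C (MvPolynomial.C a₀) * Polynomial.X +
      Polynomial.C (∑ i, MvPolynomial.C (a i) * MvPolynomial.X i + MvPolynomial.C a')) =
      a₀ * x + (∑ i, a i * t i + a') := by
  rw [ev, Polynomial.coe_eval₂RingHom, Polynomial.eval₂_add, Polynomial.eval₂_mul,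
    Polynomial.eval₂_C, Polynomial.eval₂_X, Polynomial.eval₂_C]
  simp

/-- Splitting off the part of a number composed of the primes in a set. -/
theorem split_part (S : Finset ℕ) {u : ℕ} (hu : u ≠ 0) : ∃ r w : ℕ, u = r * w ∧
    r ∈ Nat.factoredNumbers S ∧ ∀ p : ℕ, p.Prime → p ∣ w → p ∉ S ∧ p ^ u.factorization p ∣ w := by
  classical
  let A := u.primeFactors.filter (· ∈ S)
  let A' := u.primeFactors.filter (· ∉ S)
  refine ⟨∏ p ∈ A, p ^ u.factorization p, ∏ p ∈ A', p ^ u.factorization p, ?_, ?_, ?_⟩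
  · rw [Finset.prod_filter_mul_prod_filter_not]
    exact (Nat.prod_factorization_pow_eq_self hu).symm
  · refine Nat.mem_factoredNumbers_of_primeFactors_subset ?_ ?_
    · exact Finset.prod_ne_zero_iff.2 fun p hp =>
        pow_ne_zero _ (Nat.prime_of_mem_primeFactors (Finset.mem_filter.1 hp).1).ne_zero
    · intro p hp
      have hpp := Nat.prime_of_mem_primeFactors hp
      have h1 := Nat.dvd_of_mem_primeFactors hp
      obtain ⟨q, hq, hpq⟩ := (hpp.prime.dvd_finset_prod_iff _).1 h1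
      obtain ⟨h2, h3⟩ := Finset.mem_filter.1 hq
      have h4 := (Nat.prime_dvd_prime_iff_eq hpp (Nat.prime_of_mem_primeFactors h2)).1
        (hpp.dvd_of_dvd_pow hpq)
      rw [h4]
      exact h3
  · intro p hpp h1
    obtain ⟨q, hq, hpq⟩ := (hpp.prime.dvd_finset_prod_iff _).1 h1
    obtain ⟨h2, h3⟩ := Finset.mem_filter.1 hq
    have h4 := (Nat.prime_dvd_prime_iff_eq hpp (Nat.prime_of_mem_primeFactors h2)).1
      (hpp.dvd_of_dvd_pow hpq)
    rw [h4]
    exact ⟨h3, Finset.dvd_prod_of_mem (fun p => p ^ u.factorization p) hq⟩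

/-- The number of the points `(x, t)` of a box at which the value of the linear form `h` is zero, or each
of its prime factors larger than `P₀` divides it twice or divides the value of `g`. -/
theorem count_badP (h g : Polynomial (MvPolynomial (Fin s) ℤ)) (hlin : IsLin h)
    (hcop : CoprimeTo h g) {ε : ℝ} (hε : 0 < ε) : ∃ P₁ : ℕ, ∀ P₀ : ℕ, P₁ ≤ P₀ → ∃ C : ℝ, 0 < C ∧
      ∀ B : ℕ, 1 ≤ B → (((Finset.Icc (-(B : ℤ)) B ×ˢ
        (Fintype.piFinset fun _ : Fin s => Finset.Icc (-(B : ℤ)) B)).filter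
          fun z : ℤ × (Fin s → ℤ) => ev z.1 z.2 h = 0 ∨ ∀ p ∈ (ev z.1 z.2 h).natAbs.primeFactors,
            P₀ < p → (p : ℤ) ^ 2 ∣ ev z.1 z.2 h ∨ (p : ℤ) ∣ ev z.1 z.2 g).card : ℝ) ≤
              C * (B : ℝ) ^ ((s : ℝ) + 1 / 2 + ε) := by
  classical
  obtain ⟨a₀, al, a', ha₀, hh⟩ := hlin
  obtain ⟨a, b, R, hR, hab⟩ := hcop
  obtain ⟨C₂, D₂, hC₂⟩ := polyBound_mv R
  let C₁ : ℕ := a₀.natAbs + ∑ i, (al i).natAbs + a'.natAbs
  have hval : ∀ x t, ev x t h = a₀ * x + (∑ i, al i * t i + a') := fun x t => by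
    rw [hh]
    exact ev_lin a₀ al a' x t
  have hC₁ : ∀ B : ℕ, 1 ≤ B → ∀ (x : ℤ) (t : Fin s → ℤ), |x| ≤ B → (∀ i, |t i| ≤ B) →
      |ev x t h| ≤ C₁ * (B : ℤ) := by
    intro B hB x t hx ht
    have hB' : (1 : ℤ) ≤ B := by exact_mod_cast hB
    rw [hval]
    have h1 : |a₀ * x| ≤ a₀.natAbs * (B : ℤ) := by
      rw [abs_mul, Int.natCast_natAbs]
      exact mul_le_mul_of_nonneg_left hx (abs_nonneg _)
    have h2 : |∑ i, al i * t i| ≤ (∑ i, ((al i).natAbs : ℤ)) * (B : ℤ) := by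
      rw [Finset.sum_mul]
      refine (Finset.abs_sum_le_sum_abs _ _).trans (Finset.sum_le_sum fun i _ => ?_)
      rw [abs_mul, Int.natCast_natAbs]
      exact mul_le_mul_of_nonneg_left (ht i) (abs_nonneg _)
    have h3 : |a'| ≤ a'.natAbs * (B : ℤ) := by
      rw [Int.natCast_natAbs]
      exact le_mul_of_one_le_right (abs_nonneg _) hB'
    have h4 := abs_add_le (a₀ * x) (∑ i, al i * t i + a')
    have h5 := abs_add_le (∑ i, al i * t i) a'
    have h6 : ((C₁ : ℕ) : ℤ) = a₀.natAbs + ∑ i, ((al i).natAbs : ℤ) + a'.natAbs := by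
      change ((a₀.natAbs + ∑ i, (al i).natAbs + a'.natAbs : ℕ) : ℤ) = _
      push_cast
      rfl
    rw [h6, add_mul, add_mul]
    linarith
  -- the exponents
  set δ : ℝ := ε / (1 + D₂) with hδdef
  have hD : (0 : ℝ) < 1 + D₂ := by positivity
  have hδ : 0 < δ := div_pos hε hD
  have hδε : δ * (1 + D₂) = ε := by
    rw [hδdef, div_mul_cancel₀ _ hD.ne']
  obtain ⟨P₁, hP₁⟩ : ∃ P₁ : ℕ, 1 ≤ P₁ ∧ 2 ≤ (P₁ : ℝ) ^ δ := by
    obtain ⟨n, hn⟩ := exists_nat_ge ((2 : ℝ) ^ (1 / δ))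
    refine ⟨max n 1, le_max_right _ _, ?_⟩
    have h1 : (2 : ℝ) ^ (1 / δ) ≤ (max n 1 : ℕ) := hn.trans (by exact_mod_cast le_max_left _ _)
    calc (2 : ℝ) = ((2 : ℝ) ^ (1 / δ)) ^ δ := by
          rw [← Real.rpow_mul (by norm_num), one_div, inv_mul_cancel₀ hδ.ne', Real.rpow_one]
      _ ≤ _ := Real.rpow_le_rpow (by positivity) h1 hδ.le
  refine ⟨P₁, fun P₀ hP₀ => ?_⟩
  have hP : 2 ≤ (P₀ : ℝ) ^ δ :=
    hP₁.2.trans (Real.rpow_le_rpow (Nat.cast_nonneg _) (by exact_mod_cast hP₀) hδ.le)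
  obtain ⟨C₀, hC₀, hprod⟩ := prod_bound P₀ hδ hP
  obtain ⟨C₃, hC₃, hcountN⟩ := Pool.Agent.R424.PT.count P₀
  set E : ℝ := 1 + 2 * (((C₁ : ℝ) ^ δ * (C₀ * (C₂ : ℝ) ^ δ)) * (C₃ * Real.sqrt C₁)) with hE
  have hE0 : 0 ≤ E := by positivity
  set K : ℝ := R.totalDegree * 3 ^ s + 3 ^ s * E + 1 with hK
  refine ⟨K, by positivity, fun B hB => ?_⟩
  have hBR : (1 : ℝ) ≤ B := by exact_mod_cast hB
  have hB0 : (0 : ℝ) < B := by linarith
  let I : Finset ℤ := Finset.Icc (-(B : ℤ)) B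
  let Bx : Finset (Fin s → ℤ) := Fintype.piFinset fun _ : Fin s => I
  have hIc : (I.card : ℝ) = 2 * B + 1 := by
    have : I.card = 2 * B + 1 := by
      change (Finset.Icc (-(B : ℤ)) B).card = _
      rw [Int.card_Icc]
      omega
    rw [this]
    push_cast
    ring
  have hBxc : (Bx.card : ℝ) = (2 * B + 1) ^ s := by
    have : Bx.card = I.card ^ s := by
      rw [Fintype.card_piFinset_const]
    rw [this]
    push_cast
    rw [hIc]
  let bad : ℤ × (Fin s → ℤ) → Prop := fun z => ev z.1 z.2 h = 0 ∨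
    ∀ p ∈ (ev z.1 z.2 h).natAbs.primeFactors, P₀ < p →
      (p : ℤ) ^ 2 ∣ ev z.1 z.2 h ∨ (p : ℤ) ∣ ev z.1 z.2 g
  let Z : Finset (Fin s → ℤ) := Bx.filter fun t => MvPolynomial.eval t R = 0
  -- the fibres over the other points
  have hfib : ∀ t ∈ Bx, MvPolynomial.eval t R ≠ 0 →
      ((I.filter fun x => bad (x, t)).card : ℝ) ≤ E * (B : ℝ) ^ (1 / 2 + ε) := by
    intro t ht hRt
    have htB : ∀ i, |t i| ≤ B := fun i => by
      have h1 := (Fintype.mem_piFinset.1 ht) i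
      exact abs_le.2 (Finset.mem_Icc.1 h1)
    let X : ℕ := C₁ * B
    let Rn : ℕ := (MvPolynomial.eval t R).natAbs
    have hRn : 0 < Rn := Int.natAbs_pos.2 hRt
    let sp : Finset ℕ := Finset.range (P₀ + 1) ∪ Rn.primeFactors
    let A : Finset ℕ := (Finset.Icc 1 X).filter fun n => n ∈ Nat.factoredNumbers sp
    let Nn : Finset ℕ := (Finset.Icc 1 X).filter fun u => ∀ p ∈ Finset.range (X + 1), p.Prime →
      P₀ < p → p ∣ u → p ^ 2 ∣ u
    have hAc : (A.card : ℝ) ≤ (X : ℝ) ^ δ * (C₀ * (Rn : ℝ) ^ δ) := by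
      have h1 := count_factored sp hδ X A (fun n hn => by
        obtain ⟨h2, h3⟩ := Finset.mem_filter.1 hn
        obtain ⟨h4, h5⟩ := Finset.mem_Icc.1 h2
        exact ⟨h4, h5, h3⟩)
      exact h1.trans (mul_le_mul_of_nonneg_left (hprod Rn hRn)
        (Real.rpow_nonneg (Nat.cast_nonneg _) _))
    have hNc : (Nn.card : ℝ) ≤ C₃ * Real.sqrt X := hcountN X
    -- the values
    let AN : Finset ℕ := (A ×ˢ Nn).image fun r => r.1 * r.2
    have hAN : (AN.card : ℝ) ≤ A.card * Nn.card := by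
      have h1 : AN.card ≤ A.card * Nn.card :=
        Finset.card_image_le.trans (Finset.card_product _ _).le
      exact_mod_cast h1
    let vals : Finset ℤ :=
      insert 0 (AN.image (fun n : ℕ => (n : ℤ)) ∪ AN.image (fun n : ℕ => -(n : ℤ)))
    have hvals : (vals.card : ℝ) ≤ 1 + 2 * AN.card := by
      have h1 : vals.card ≤ 1 + 2 * AN.card := by
        calc vals.card ≤ _ + 1 := Finset.card_insert_le _ _
          _ ≤ (AN.image (fun n : ℕ => (n : ℤ))).card +
              (AN.image (fun n : ℕ => -(n : ℤ))).card + 1 := by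
              gcongr
              exact Finset.card_union_le _ _
          _ ≤ AN.card + AN.card + 1 := by gcongr <;> exact Finset.card_image_le
          _ = 1 + 2 * AN.card := by ring
      exact_mod_cast h1
    have hmaps : ∀ x ∈ I.filter (fun x => bad (x, t)), ev x t h ∈ vals := by
      intro x hx
      obtain ⟨hxI, hxb⟩ := Finset.mem_filter.1 hx
      have hxB : |x| ≤ B := abs_le.2 (Finset.mem_Icc.1 hxI)
      by_cases h0 : ev x t h = 0
      · rw [h0]
        exact Finset.mem_insert_self _ _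
      have hb : ∀ p ∈ (ev x t h).natAbs.primeFactors, P₀ < p →
          (p : ℤ) ^ 2 ∣ ev x t h ∨ (p : ℤ) ∣ ev x t g := by
        rcases hxb with h1 | h1
        · exact absurd h1 h0
        · exact h1
      set u : ℕ := (ev x t h).natAbs with hudef
      have hu0 : u ≠ 0 := Int.natAbs_ne_zero.2 h0
      have huX : u ≤ X := by
        have h1 := hC₁ B hB x t hxB htB
        have h2 : ((u : ℕ) : ℤ) ≤ (X : ℕ) := by
          rw [hudef, Int.natCast_natAbs]
          change _ ≤ ((C₁ * B : ℕ) : ℤ)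
          push_cast
          exact h1
        exact_mod_cast h2
      obtain ⟨r, w, hrw, hr, hw⟩ := split_part sp hu0
      have hr0 : r ≠ 0 := fun h => hu0 (by rw [hrw, h, zero_mul])
      have hw0 : w ≠ 0 := fun h => hu0 (by rw [hrw, h, mul_zero])
      have hrX : r ≤ X := (Nat.le_of_dvd (Nat.pos_of_ne_zero hu0) ⟨w, hrw⟩).trans huX
      have hwX : w ≤ X := (Nat.le_of_dvd (Nat.pos_of_ne_zero hu0)
        ⟨r, by rw [hrw, mul_comm]⟩).trans huX
      have hmem : u ∈ AN := by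
        refine Finset.mem_image.2 ⟨(r, w), Finset.mem_product.2
          ⟨Finset.mem_filter.2 ⟨Finset.mem_Icc.2 ⟨Nat.pos_of_ne_zero hr0, hrX⟩, hr⟩,
            Finset.mem_filter.2 ⟨Finset.mem_Icc.2 ⟨Nat.pos_of_ne_zero hw0, hwX⟩, ?_⟩⟩, hrw.symm⟩
        intro p _ hpp hpP hpw
        obtain ⟨h1, h2⟩ := hw p hpp hpw
        have hpu : p ∣ u := hpw.trans ⟨r, by rw [hrw, mul_comm]⟩
        have hpR : ¬ p ∣ Rn := fun h3 =>
          h1 (Finset.mem_union_right _ (Nat.mem_primeFactors.2 ⟨hpp, h3, hRn.ne'⟩))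
        have h3 : (p : ℤ) ^ 2 ∣ ev x t h := by
          refine (hb p (Nat.mem_primeFactors.2 ⟨hpp, hpu, hu0⟩) hpP).resolve_right fun h4 => ?_
          apply hpR
          have h5 : (p : ℤ) ∣ ev x t h := Int.natCast_dvd.2 hpu
          have h6 : ev x t (a * h + b * g) = MvPolynomial.eval t R := by
            rw [hab, ev, Polynomial.coe_eval₂RingHom, Polynomial.eval₂_C]
          rw [map_add, map_mul, map_mul] at h6
          have h7 : (p : ℤ) ∣ MvPolynomial.eval t R := by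
            rw [← h6]
            exact (h5.mul_left _).add (h4.mul_left _)
          exact Int.natCast_dvd.1 h7
        have h4 : p ^ 2 ∣ u := by
          have h5 : ((p ^ 2 : ℕ) : ℤ) ∣ ev x t h := by
            push_cast
            exact h3
          exact Int.natCast_dvd.1 h5
        exact (pow_dvd_pow p ((hpp.pow_dvd_iff_le_factorization hu0).1 h4)).trans h2
      refine Finset.mem_insert_of_mem (Finset.mem_union.2 ?_)
      rcases le_total 0 (ev x t h) with h5 | h5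
      · exact Or.inl (Finset.mem_image.2 ⟨_, hmem, Int.natAbs_of_nonneg h5⟩)
      · refine Or.inr (Finset.mem_image.2 ⟨_, hmem, ?_⟩)
        rw [hudef, Int.ofNat_natAbs_of_nonpos h5, neg_neg]
    have hcard : ((I.filter fun x => bad (x, t)).card : ℝ) ≤ 1 + 2 * (A.card * Nn.card) := by
      have h1 : (I.filter fun x => bad (x, t)).card ≤ vals.card := by
        refine Finset.card_le_card_of_injOn (fun x => ev x t h) hmaps ?_
        intro x _ x' _ hxx
        simp only [hval] at hxx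
        have h2 : a₀ * x = a₀ * x' := by linarith
        exact mul_left_cancel₀ ha₀ h2
      calc ((I.filter fun x => bad (x, t)).card : ℝ) ≤ (vals.card : ℝ) := by exact_mod_cast h1
        _ ≤ 1 + 2 * AN.card := hvals
        _ ≤ _ := by gcongr
    have hRnB : (Rn : ℝ) ≤ C₂ * (B : ℝ) ^ D₂ := by
      have h1 := hC₂ B hB 0 t (by simp) htB
      have h2 : ((Rn : ℕ) : ℤ) ≤ ((C₂ * B ^ D₂ : ℕ) : ℤ) := by
        change (((MvPolynomial.eval t R).natAbs : ℕ) : ℤ) ≤ _
        rw [Int.natCast_natAbs]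
        push_cast
        exact h1
      exact_mod_cast h2
    have hXB : (X : ℝ) = C₁ * (B : ℝ) := by
      change ((C₁ * B : ℕ) : ℝ) = _
      push_cast
      rfl
    have hpow : (A.card : ℝ) ≤ ((C₁ : ℝ) ^ δ * (C₀ * (C₂ : ℝ) ^ δ)) * (B : ℝ) ^ ε := by
      calc (A.card : ℝ) ≤ (X : ℝ) ^ δ * (C₀ * (Rn : ℝ) ^ δ) := hAc
        _ ≤ (C₁ * (B : ℝ)) ^ δ * (C₀ * (C₂ * (B : ℝ) ^ D₂) ^ δ) := by
            rw [hXB]
            gcongr
        _ = ((C₁ : ℝ) ^ δ * (C₀ * (C₂ : ℝ) ^ δ)) * ((B : ℝ) ^ δ * ((B : ℝ) ^ D₂) ^ δ) := by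
            rw [Real.mul_rpow (Nat.cast_nonneg _) (by positivity),
              Real.mul_rpow (Nat.cast_nonneg _) (by positivity)]
            ring
        _ = ((C₁ : ℝ) ^ δ * (C₀ * (C₂ : ℝ) ^ δ)) * (B : ℝ) ^ ε := by
            have h1 : (B : ℝ) ^ δ * ((B : ℝ) ^ D₂) ^ δ = (B : ℝ) ^ ε := by
              rw [← Real.rpow_natCast, ← Real.rpow_mul hB0.le, ← Real.rpow_add hB0, ← hδε]
              congr 1
              ring
            rw [h1]
    have hpowN : (Nn.card : ℝ) ≤ (C₃ * Real.sqrt C₁) * (B : ℝ) ^ (1 / 2 : ℝ) := by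
      calc (Nn.card : ℝ) ≤ C₃ * Real.sqrt X := hNc
        _ = (C₃ * Real.sqrt C₁) * (B : ℝ) ^ (1 / 2 : ℝ) := by
            rw [hXB, Real.sqrt_mul (Nat.cast_nonneg _), ← Real.sqrt_eq_rpow]
            ring
    have hBε : (1 : ℝ) ≤ (B : ℝ) ^ (1 / 2 + ε) := Real.one_le_rpow hBR (by positivity)
    calc _ ≤ (1 : ℝ) + 2 * (A.card * Nn.card) := hcard
      _ ≤ 1 * (B : ℝ) ^ (1 / 2 + ε) + 2 * ((((C₁ : ℝ) ^ δ * (C₀ * (C₂ : ℝ) ^ δ)) * (B : ℝ) ^ ε) *
          ((C₃ * Real.sqrt C₁) * (B : ℝ) ^ (1 / 2 : ℝ))) := by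
          gcongr
          linarith
      _ = E * (B : ℝ) ^ (1 / 2 + ε) := by
          rw [hE, Real.rpow_add hB0]
          ring
  -- the sum
  have hcover : ((I ×ˢ Bx).filter bad) ⊆ (I ×ˢ Z) ∪
      (Bx.filter fun t => MvPolynomial.eval t R ≠ 0).biUnion fun t =>
        (I.filter fun x => bad (x, t)).image fun x => (x, t) := by
    rintro ⟨x, t⟩ hz
    obtain ⟨h1, h2⟩ := Finset.mem_filter.1 hz
    obtain ⟨h3, h4⟩ := Finset.mem_product.1 h1
    by_cases h5 : MvPolynomial.eval t R = 0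
    · exact Finset.mem_union_left _ (Finset.mem_product.2 ⟨h3, Finset.mem_filter.2 ⟨h4, h5⟩⟩)
    · refine Finset.mem_union_right _ (Finset.mem_biUnion.2 ⟨t, Finset.mem_filter.2 ⟨h4, h5⟩, ?_⟩)
      exact Finset.mem_image.2 ⟨x, Finset.mem_filter.2 ⟨h3, h2⟩, rfl⟩
  have hZ : (((I ×ˢ Z).card : ℕ) : ℝ) ≤ R.totalDegree * (2 * B + 1) ^ s := by
    rw [Finset.card_product]
    push_cast
    rw [hIc, mul_comm]
    exact zeros R hR B
  have h3B : (2 * (B : ℝ) + 1) ^ s ≤ 3 ^ s * (B : ℝ) ^ s := by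
    rw [← mul_pow]
    gcongr
    linarith
  have hsum : ((((Bx.filter fun t => MvPolynomial.eval t R ≠ 0).biUnion fun t =>
        (I.filter fun x => bad (x, t)).image fun x => (x, t)).card : ℕ) : ℝ) ≤
      (2 * B + 1) ^ s * (E * (B : ℝ) ^ (1 / 2 + ε)) := by
    calc _ ≤ ((∑ t ∈ (Bx.filter fun t => MvPolynomial.eval t R ≠ 0),
          ((I.filter fun x => bad (x, t)).image fun x => (x, t)).card : ℕ) : ℝ) := by
          exact_mod_cast Finset.card_biUnion_le
      _ = ∑ t ∈ (Bx.filter fun t => MvPolynomial.eval t R ≠ 0),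
          ((((I.filter fun x => bad (x, t)).image fun x => (x, t)).card : ℕ) : ℝ) := by push_cast; rfl
      _ ≤ ∑ t ∈ (Bx.filter fun t => MvPolynomial.eval t R ≠ 0), E * (B : ℝ) ^ (1 / 2 + ε) := by
          refine Finset.sum_le_sum fun t ht => ?_
          obtain ⟨h1, h2⟩ := Finset.mem_filter.1 ht
          refine le_trans ?_ (hfib t h1 h2)
          exact_mod_cast Finset.card_image_le
      _ = ((Bx.filter fun t => MvPolynomial.eval t R ≠ 0).card : ℝ) *
          (E * (B : ℝ) ^ (1 / 2 + ε)) := by rw [Finset.sum_const, nsmul_eq_mul]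
      _ ≤ (Bx.card : ℝ) * (E * (B : ℝ) ^ (1 / 2 + ε)) := by
          gcongr
          exact Finset.filter_subset _ _
      _ = _ := by rw [hBxc]
  have hBε : (1 : ℝ) ≤ (B : ℝ) ^ (1 / 2 + ε) := Real.one_le_rpow hBR (by positivity)
  have hBs : (B : ℝ) ^ ((s : ℝ) + 1 / 2 + ε) = (B : ℝ) ^ s * (B : ℝ) ^ (1 / 2 + ε) := by
    rw [add_assoc, Real.rpow_add hB0, Real.rpow_natCast]
  calc _ ≤ (((I ×ˢ Z) ∪
      (Bx.filter fun t => MvPolynomial.eval t R ≠ 0).biUnion fun t =>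
        (I.filter fun x => bad (x, t)).image fun x => (x, t)).card : ℝ) := by
        exact_mod_cast Finset.card_le_card hcover
    _ ≤ (((I ×ˢ Z).card + ((Bx.filter fun t => MvPolynomial.eval t R ≠ 0).biUnion fun t =>
        (I.filter fun x => bad (x, t)).image fun x => (x, t)).card : ℕ) : ℝ) := by
        exact_mod_cast Finset.card_union_le _ _
    _ ≤ R.totalDegree * (2 * B + 1) ^ s + (2 * B + 1) ^ s * (E * (B : ℝ) ^ (1 / 2 + ε)) := by
        push_cast
        exact add_le_add (by exact_mod_cast hZ) hsum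
    _ ≤ R.totalDegree * (3 ^ s * (B : ℝ) ^ s) * (B : ℝ) ^ (1 / 2 + ε) +
        (3 ^ s * (B : ℝ) ^ s) * (E * (B : ℝ) ^ (1 / 2 + ε)) := by
        have h1 : (R.totalDegree : ℝ) * (2 * B + 1) ^ s ≤
            R.totalDegree * (3 ^ s * (B : ℝ) ^ s) * (B : ℝ) ^ (1 / 2 + ε) := by
          calc (R.totalDegree : ℝ) * (2 * B + 1) ^ s ≤
                R.totalDegree * (3 ^ s * (B : ℝ) ^ s) := by gcongr
            _ ≤ _ := le_mul_of_one_le_right (by positivity) hBε
        gcongr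
    _ = (R.totalDegree * 3 ^ s + 3 ^ s * E) * (B : ℝ) ^ ((s : ℝ) + 1 / 2 + ε) := by
        rw [hBs]
        ring
    _ ≤ K * (B : ℝ) ^ ((s : ℝ) + 1 / 2 + ε) := by
        gcongr
        rw [hK]
        linarith

end Pool.Agent.R424.MP
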