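import Pool.Agent.R424.TG.Local
import Pool.Agent.R424.MP.Cnt

/-!
Families with several integral parameters (helper file).
-/

set_option autoImplicit false

namespace Pool.Agent.R424.MP

open MvPolynomial Pool.Agent.R424.TG
open Pool.Agent.Y152.RP.FamM (NoAtypical)

variable {s : ℕ}

/-- `c = h ^ e g`, where `h` and `g` have no common factor of positive degree in the first
variable. -/
def HasOrd (h c : Polynomial (MvPolynomial (Fin s) ℤ)) (e : ℕ) : Prop :=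
  ∃ g, c = h ^ e * g ∧ CoprimeTo h g

theorem CoprimeTo.mul {h g₁ g₂ : Polynomial (MvPolynomial (Fin s) ℤ)} (h₁ : CoprimeTo h g₁)
    (h₂ : CoprimeTo h g₂) : CoprimeTo h (g₁ * g₂) := by
  obtain ⟨a₁, b₁, R₁, hR₁, e₁⟩ := h₁
  obtain ⟨a₂, b₂, R₂, hR₂, e₂⟩ := h₂
  refine ⟨a₁ * a₂ * h + a₁ * b₂ * g₂ + a₂ * b₁ * g₁, b₁ * b₂, R₁ * R₂, mul_ne_zero hR₁ hR₂, ?_⟩
  rw [Polynomial.C_mul, ← e₁, ← e₂]
  ring

theorem CoprimeTo.prod {h : Polynomial (MvPolynomial (Fin s) ℤ)} {ι : Type} (t : Finset ι)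
    (g : ι → Polynomial (MvPolynomial (Fin s) ℤ)) (hg : ∀ i, CoprimeTo h (g i)) :
    CoprimeTo h (∏ i ∈ t, g i) := by
  classical
  induction t using Finset.induction_on with
  | empty =>
    rw [Finset.prod_empty]
    exact ⟨0, 1, 1, one_ne_zero, by rw [Polynomial.C_1]; ring⟩
  | insert a t ha ih =>
    rw [Finset.prod_insert ha]
    exact (hg a).mul ih

theorem place {ρ : Type} (x : ρ → ℂ) (hx : AlgebraicIndependent ℚ x) {p : ℕ} (hp : p.Prime) :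
    ∃ V : ValuationSubring ℂ, (p : ℂ) ∈ V.nonunits ∧ ∀ j, V.valuation (x j) = 1 := by
  classical
  obtain ⟨V, hV1, -, hV3⟩ := Pool.Agent.W466.ZP.exists_gauss x hx hp
  refine ⟨V, hV1, fun j => ?_⟩
  have h1 := hV3 (X j) (by
    intro hd
    rw [C_dvd_iff_dvd_coeff] at hd
    have h2 := hd (Finsupp.single j 1)
    rw [coeff_X, if_pos rfl] at h2
    have h3 : p ∣ 1 := by exact_mod_cast h2
    exact hp.one_lt.ne' (Nat.dvd_one.1 h3))
  rwa [aeval_X] at h1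

/-- Families with several integral parameters. -/
theorem manyT (K : Subfield ℂ) [Countable K] {κ : Type} [Finite κ] {n k N m M : ℕ}
    (supp : κ → Finset (((Fin n ⊕ Fin k) ⊕ Fin N) →₀ ℕ))
    (c : κ → (((Fin n ⊕ Fin k) ⊕ Fin N) →₀ ℕ) → Polynomial (MvPolynomial (Fin s) ℤ))
    (h : Fin M → Polynomial (MvPolynomial (Fin s) ℤ)) (hdeg : ∀ l, 0 < (h l).natDegree)
    (e : Fin M → κ → (((Fin n ⊕ Fin k) ⊕ Fin N) →₀ ℕ) → ℕ)
    (he : ∀ l q, ∀ β ∈ supp q, HasOrd (h l) (c q β) (e l q β)) (hgen : GenericOrders m supp e)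
    (Γ : Finset ℂ) (hΓ : ∀ γ ∈ Γ, IsAlgebraic ℚ γ) (hΓK : ∀ γ ∈ Γ, γ ∈ K) (ε : ℝ) (hε : 0 < ε) :
    ∃ C : ℝ, ∀ B : ℕ, 1 ≤ B →
      ({z : ℤ × (Fin s → ℤ) | |z.1| ≤ B ∧ (∀ i, |z.2 i| ≤ B) ∧
        ¬ NoAtypical (algebraMap (Algebra.adjoin ℤ (Γ : Set ℂ)) ℂ) K m
          (solutions supp (fun q β => ((ev z.1 z.2 (c q β) : ℤ) : ℂ)) :
            Set (Fin n ⊕ Fin k → ℂ))}.ncard : ℝ) ≤ C * (B : ℝ) ^ ((s : ℝ) + ε) := by
  classical
  have := Fintype.ofFinite κ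
  let ι := Σ q : κ, {β // β ∈ supp q}
  have hg : ∀ (l : Fin M) (x : ι), ∃ g, c x.1 x.2 = h l ^ e l x.1 x.2 * g ∧ CoprimeTo (h l) g :=
    fun l x => he l x.1 _ x.2.2
  choose g hg1 hg2 using hg
  let G : Fin M → Polynomial (MvPolynomial (Fin s) ℤ) := fun l => ∏ x : ι, g l x
  have hcop : ∀ l, CoprimeTo (h l) (G l) := fun l => CoprimeTo.prod _ _ (hg2 l)
  choose P₁ hP₁ using fun l => count_bad (h l) (G l) (hdeg l) (hcop l) hε
  obtain ⟨D₀, hD₀, halg⟩ := Pool.Agent.W466.ZP.alg_mem (fun z : Γ => (z : ℂ)) fun z => hΓ z z.2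
  let P₀ : ℕ := D₀ + ∑ l, P₁ l
  have hP₀ : ∀ l, P₁ l ≤ P₀ := fun l =>
    (Finset.single_le_sum (f := P₁) (fun _ _ => Nat.zero_le _) (Finset.mem_univ l)).trans
      (Nat.le_add_left _ _)
  choose C hC hcount using fun l => hP₁ l P₀ (hP₀ l)
  refine ⟨∑ l, C l, fun B hB => ?_⟩
  let Box : Finset (ℤ × (Fin s → ℤ)) := Finset.Icc (-(B : ℤ)) B ×ˢ
    (Fintype.piFinset fun _ : Fin s => Finset.Icc (-(B : ℤ)) B)
  let Bad : Fin M → Finset (ℤ × (Fin s → ℤ)) := fun l => Box.filter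
    fun z : ℤ × (Fin s → ℤ) => ev z.1 z.2 (h l) = 0 ∨
      ∀ p ∈ (ev z.1 z.2 (h l)).natAbs.primeFactors, P₀ < p → (p : ℤ) ∣ ev z.1 z.2 (G l)
  have hsub : {z : ℤ × (Fin s → ℤ) | |z.1| ≤ B ∧ (∀ i, |z.2 i| ≤ B) ∧
        ¬ NoAtypical (algebraMap (Algebra.adjoin ℤ (Γ : Set ℂ)) ℂ) K m
          (solutions supp (fun q β => ((ev z.1 z.2 (c q β) : ℤ) : ℂ)) :
            Set (Fin n ⊕ Fin k → ℂ))} ⊆ ((Finset.univ.biUnion Bad : Finset _) : Set _) := by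
    rintro z ⟨hz1, hz2, hbad⟩
    by_contra hcon
    rw [Finset.mem_coe, Finset.mem_biUnion] at hcon
    push Not at hcon
    have hzBox : z ∈ Box := Finset.mem_product.2 ⟨Finset.mem_Icc.2 (abs_le.1 hz1),
      Fintype.mem_piFinset.2 fun i => Finset.mem_Icc.2 (abs_le.1 (hz2 i))⟩
    have hgood : ∀ l, ev z.1 z.2 (h l) ≠ 0 ∧ ∃ p : ℕ, p.Prime ∧ (p : ℤ) ∣ ev z.1 z.2 (h l) ∧
        P₀ < p ∧ ¬ (p : ℤ) ∣ ev z.1 z.2 (G l) := by
      intro l
      have h1 := hcon l (Finset.mem_univ l)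
      have h2 : ¬ (ev z.1 z.2 (h l) = 0 ∨ ∀ p ∈ (ev z.1 z.2 (h l)).natAbs.primeFactors, P₀ < p →
          (p : ℤ) ∣ ev z.1 z.2 (G l)) := fun h3 => h1 (Finset.mem_filter.2 ⟨hzBox, h3⟩)
      push Not at h2
      obtain ⟨h3, p, hp, hpP, hpG⟩ := h2
      exact ⟨h3, p, Nat.prime_of_mem_primeFactors hp,
        Int.natCast_dvd.2 (Nat.dvd_of_mem_primeFactors hp), hpP, hpG⟩
    apply hbad
    have hK : ∀ a : Algebra.adjoin ℤ (Γ : Set ℂ),
        algebraMap (Algebra.adjoin ℤ (Γ : Set ℂ)) ℂ a ∈ K := by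
      intro a
      have hle : Algebra.adjoin ℤ (Γ : Set ℂ) ≤ subalgebraOfSubring K.toSubring :=
        Algebra.adjoin_le fun γ hγ => hΓK γ hγ
      exact hle a.2
    refine coreB (algebraMap (Algebra.adjoin ℤ (Γ : Set ℂ)) ℂ) K hK supp _
      fun r cls d L hd hr => ?_
    obtain ⟨l, hl⟩ := hgen r cls d L hd hr
    refine ⟨e l, hl, fun ρ x hx => ?_⟩
    obtain ⟨h0, p, hp, hph, hpP, hpG⟩ := hgood l
    have hxQ : AlgebraicIndependent ℚ x := hx.restrictScalars (algebraMap ℚ K).injective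
    obtain ⟨V, hV, hVx⟩ := place x hxQ hp
    have hp1 : V.valuation (p : ℂ) < 1 := by rwa [ValuationSubring.mem_nonunits_iff] at hV
    have hint : ∀ w : ℤ, V.valuation (w : ℂ) ≤ 1 := fun w => by
      rw [ValuationSubring.valuation_le_one_iff]
      exact intCast_mem V w
    refine ⟨V, V.valuation ((ev z.1 z.2 (h l) : ℤ) : ℂ), ?_, ?_, fun q β hβ => ?_, fun a => ?_, hVx⟩
    · rw [Valuation.ne_zero_iff]
      exact_mod_cast h0
    · obtain ⟨w, hw⟩ := hph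
      rw [hw]
      push_cast
      rw [map_mul]
      exact (mul_le_of_le_one_right' (hint w)).trans_lt hp1
    · have h1 := hg1 l ⟨q, β, hβ⟩
      have h2 : ¬ (p : ℤ) ∣ ev z.1 z.2 (g l ⟨q, β, hβ⟩) := by
        intro h3
        apply hpG
        change (p : ℤ) ∣ ev z.1 z.2 (∏ x : ι, g l x)
        rw [map_prod]
        exact h3.trans (Finset.dvd_prod_of_mem _ (Finset.mem_univ (⟨q, β, hβ⟩ : ι)))
      have h3 : ev z.1 z.2 (c q β) = ev z.1 z.2 (h l) ^ e l q β * ev z.1 z.2 (g l ⟨q, β, hβ⟩) := by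
        rw [h1, map_mul, map_pow]
      rw [h3]
      push_cast
      rw [map_mul, map_pow, Pool.Agent.W466.ZP.int_unit V hp hV _ h2, mul_one]
    · rw [ValuationSubring.valuation_le_one_iff]
      have hpD : ¬ p ∣ D₀ := fun h1 => by
        have := Nat.le_of_dvd hD₀ h1
        change D₀ + ∑ l, P₁ l < p at hpP
        omega
      have hle : Algebra.adjoin ℤ (Γ : Set ℂ) ≤ subalgebraOfSubring V.toSubring :=
        Algebra.adjoin_le fun γ hγ => halg p hp hpD V hV ⟨γ, hγ⟩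
      exact hle a.2
  have hcard : ((Finset.univ.biUnion Bad).card : ℝ) ≤ ∑ l, ((Bad l).card : ℝ) := by
    exact_mod_cast Finset.card_biUnion_le
  calc _ ≤ ((((Finset.univ.biUnion Bad : Finset _) : Set (ℤ × (Fin s → ℤ))).ncard : ℕ) : ℝ) := by
        exact_mod_cast Set.ncard_le_ncard hsub (Finset.finite_toSet _)
    _ = ((Finset.univ.biUnion Bad).card : ℝ) := by rw [Set.ncard_coe_finset]
    _ ≤ ∑ l, ((Bad l).card : ℝ) := hcard
    _ ≤ ∑ l, C l * (B : ℝ) ^ ((s : ℝ) + ε) := Finset.sum_le_sum fun l _ => hcount l B hB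
    _ = (∑ l, C l) * (B : ℝ) ^ ((s : ℝ) + ε) := by rw [Finset.sum_mul]

end Pool.Agent.R424.MP
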