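import Pool.Agent.R424.MP.Main
import Pool.Agent.W466.CA

/-!
Points of adjoint-isomorphism orbits on families of subvarieties of `Y(1)^n` (helper file).
-/

set_option autoImplicit false

namespace Pool.Agent.R424.MP

open MvPolynomial Pool.Agent.R424.TG Pool.Agent.W282.ZP UpperHalfPlane H294ZP

variable {s n b N : ℕ} {κ : Type}

/-- The elliptic curves `ℂ / (ℤ + ℤ z)` and `ℂ / (ℤ + ℤ w)` are isogenous: `w = g z` for an integral
matrix `g` of positive determinant. -/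
def Isogenous (z w : ℍ) : Prop :=
  ∃ g : Matrix (Fin 2) (Fin 2) ℤ, 0 < g.det ∧ (w : ℂ) * (g 1 0 * z + g 1 1) = g 0 0 * z + g 0 1

/-- The set of the points `(j(w_1), …, j(w_n))` of `Y(1)^n` such that every `w_i` is a special point, or
isogenous to one of the points `τ_c`, or isogenous to a point whose `j`-invariant is integral over
`ℤ[Γ]`. -/
def orbit (Γ : Finset ℂ) (τ : Fin b → ℍ) : Set (Fin n → ℂ) :=
  {x | ∀ i, ∃ w : ℍ, x i = jj w ∧ (IsCM w ∨ (∃ c, Isogenous (τ c) w) ∨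
    ∃ z : ℍ, IsIntegral (Algebra.adjoin ℤ (Γ : Set ℂ)) (jj z) ∧ Isogenous z w)}

/-- The set of the points `x ∈ ℂ^(n+b)` for which there is a `y ∈ ℂ^N` such that all polynomials with the
exponents `supp q` and the coefficients `a q β` vanish at `(x, y)`. -/
def solO (supp : κ → Finset (((Fin n ⊕ Fin b) ⊕ Fin N) →₀ ℕ))
    (a : κ → (((Fin n ⊕ Fin b) ⊕ Fin N) →₀ ℕ) → ℂ) : Set (Fin n ⊕ Fin b → ℂ) :=
  {x | ∃ y : Fin N → ℂ, ∀ q,
    ∑ β ∈ supp q, a q β * ∏ i, (Sum.elim x y : (Fin n ⊕ Fin b) ⊕ Fin N → ℂ) i ^ β i = 0}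

/-- A point `w` with rational or infinite coordinates is compatible with the type `(cls, d)` of a point
of an orbit: the coordinates without class are not negative, and a coordinate of class `c` and the
coordinate of the `c`-th base point are both not negative, or both negative with `d i` times their
product a square. -/
def CompatibleO (cls : Fin n → Option (Fin b)) (d : Fin n → ℕ)
    (w : (Fin n ⊕ Fin b) ⊕ Fin N → WithTop ℚ) : Prop :=
  ∀ i, (cls i = none → 0 ≤ w (Sum.inl (Sum.inl i))) ∧ ∀ c, cls i = some c →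
    (0 ≤ w (Sum.inl (Sum.inl i)) ∧ 0 ≤ w (Sum.inl (Sum.inr c))) ∨
    ∃ u v : ℚ, w (Sum.inl (Sum.inl i)) = (u : WithTop ℚ) ∧
      w (Sum.inl (Sum.inr c)) = (v : WithTop ℚ) ∧ u < 0 ∧ v < 0 ∧ IsSquare ((d i : ℚ) * (u * v))

/-- The orders `e l q β` exclude all types `(cls, d)` of points of orbits: for every type there is an
`l` such that the tropicalization has no compatible point. -/
def GenericO {M : ℕ} (supp : κ → Finset (((Fin n ⊕ Fin b) ⊕ Fin N) →₀ ℕ))
    (e : Fin M → κ → (((Fin n ⊕ Fin b) ⊕ Fin N) →₀ ℕ) → ℕ) : Prop :=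
  ∀ (cls : Fin n → Option (Fin b)) (d : Fin n → ℕ), (∀ i, 0 < d i) →
    ∃ l, ∀ w : (Fin n ⊕ Fin b) ⊕ Fin N → WithTop ℚ, (∀ q, TropAt (supp q) (e l q) w) →
      ¬ CompatibleO cls d w

theorem orbit_type {Γ : Finset ℂ} {τ : Fin b → ℍ} {x : Fin n → ℂ} (hx : x ∈ orbit Γ τ) :
    ∃ (cls : Fin n → Option (Fin b)) (g : Fin n → Matrix (Fin 2) (Fin 2) ℤ) (w : Fin n → ℍ),
      (∀ i, 0 < (g i).det) ∧ (∀ i, x i = jj (w i)) ∧
      (∀ i, cls i = none → IsIntegral (Algebra.adjoin ℤ (Γ : Set ℂ)) (x i)) ∧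
      ∀ i c, cls i = some c → (w i : ℂ) * (g i 1 0 * τ c + g i 1 1) = g i 0 0 * τ c + g i 0 1 := by
  classical
  have h1 : ∀ i, ∃ (o : Option (Fin b)) (g : Matrix (Fin 2) (Fin 2) ℤ) (w : ℍ), 0 < g.det ∧
      x i = jj w ∧ (o = none → IsIntegral (Algebra.adjoin ℤ (Γ : Set ℂ)) (x i)) ∧
      ∀ c, o = some c → (w : ℂ) * (g 1 0 * τ c + g 1 1) = g 0 0 * τ c + g 0 1 := by
    intro i
    obtain ⟨w, hw, hcm | ⟨c, g, hg, he⟩ | ⟨z, hz, g, hg, he⟩⟩ := hx i
    · refine ⟨none, 1, w, by simp, hw, fun _ => ?_, fun c h => by simp at h⟩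
      rw [hw]
      exact (singular_modulus_integral w hcm).tower_top
    · refine ⟨some c, g, w, hg, hw, fun h => by simp at h, fun c' h => ?_⟩
      obtain rfl : c = c' := Option.some.inj h
      exact he
    · refine ⟨none, 1, w, by simp, hw, fun _ => ?_, fun c h => by simp at h⟩
      have h2 : IsIntegral (Algebra.adjoin ℤ {jj z}) (jj w) :=
        isogenous_integral z w (g 0 0) (g 0 1) (g 1 0) (g 1 1) (by
          rw [Matrix.det_fin_two] at hg
          exact hg) he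
      rw [hw]
      let R : Subring ℂ := (integralClosure (Algebra.adjoin ℤ (Γ : Set ℂ)) ℂ).toSubring
      have hR : Algebra.adjoin ℤ {jj z} ≤ subalgebraOfSubring R :=
        Algebra.adjoin_le (by
          rintro _ rfl
          exact hz)
      obtain ⟨P, hP, hPe⟩ := h2
      have h3 : IsIntegral (integralClosure (Algebra.adjoin ℤ (Γ : Set ℂ)) ℂ) (jj w) := by
        let φ : Algebra.adjoin ℤ {jj z} →+* integralClosure (Algebra.adjoin ℤ (Γ : Set ℂ)) ℂ :=
          { toFun := fun u => ⟨u, hR u.2⟩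
            map_one' := rfl
            map_mul' := fun _ _ => rfl
            map_zero' := rfl
            map_add' := fun _ _ => rfl }
        refine ⟨P.map φ, hP.map φ, ?_⟩
        rw [Polynomial.eval₂_map]
        exact hPe
      exact isIntegral_trans _ h3
  choose cls g w h using h1
  exact ⟨cls, g, w, fun i => (h i).1, fun i => (h i).2.1, fun i => (h i).2.2.1,
    fun i c => (h i).2.2.2 c⟩

/-- The renumbering of the coordinates. -/
def renO (n b N : ℕ) : (Fin (n + b) ⊕ Fin 0) ⊕ Fin N ≃ (Fin n ⊕ Fin b) ⊕ Fin N :=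
  Equiv.sumCongr ((Equiv.sumEmpty (Fin (n + b)) (Fin 0)).trans finSumFinEquiv.symm) (Equiv.refl _)

/-- The renumbering of the exponents. -/
noncomputable def renOE (n b N : ℕ) :
    (((Fin n ⊕ Fin b) ⊕ Fin N) →₀ ℕ) ≃ (((Fin (n + b) ⊕ Fin 0) ⊕ Fin N) →₀ ℕ) where
  toFun := Finsupp.equivMapDomain (renO n b N).symm
  invFun := Finsupp.equivMapDomain (renO n b N)
  left_inv β := by
    ext i
    simp
  right_inv β := by
    ext i
    simp

theorem renOE_apply (β : ((Fin n ⊕ Fin b) ⊕ Fin N) →₀ ℕ) (i : (Fin (n + b) ⊕ Fin 0) ⊕ Fin N) :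
    renOE n b N β i = β (renO n b N i) := rfl

theorem trop_renO (supp : Finset (((Fin n ⊕ Fin b) ⊕ Fin N) →₀ ℕ))
    (e : (((Fin n ⊕ Fin b) ⊕ Fin N) →₀ ℕ) → ℕ)
    (w : (Fin (n + b) ⊕ Fin 0) ⊕ Fin N → WithTop ℚ)
    (h : TropAt (supp.map (renOE n b N).toEmbedding) (fun β => e ((renOE n b N).symm β)) w) :
    TropAt supp e (w ∘ (renO n b N).symm) := by
  have hval : ∀ (β : ((Fin n ⊕ Fin b) ⊕ Fin N) →₀ ℕ) (k : ℕ),
      value w (renOE n b N β) k = value (w ∘ (renO n b N).symm) β k := by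
    intro β k
    rw [value, value]
    congr 1
    rw [← Equiv.sum_comp (renO n b N) (fun i => β i • (w ∘ (renO n b N).symm) i)]
    refine Finset.sum_congr rfl fun i _ => ?_
    rw [renOE_apply, Function.comp_apply, Equiv.symm_apply_apply]
  rcases h with h | ⟨a, ha, b, hb, hab, heq, hle⟩
  · left
    intro β hβ
    have h1 := h (renOE n _ N β) (Finset.mem_map.2 ⟨β, hβ, rfl⟩)
    simp only [Equiv.symm_apply_apply, hval] at h1
    exact h1
  · right
    obtain ⟨a', ha', rfl⟩ := Finset.mem_map.1 ha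
    obtain ⟨b', hb', rfl⟩ := Finset.mem_map.1 hb
    simp only [Equiv.coe_toEmbedding, Equiv.symm_apply_apply, hval] at heq hle hab
    refine ⟨a', ha', b', hb', fun h => hab (by rw [h]), heq, fun β hβ => ?_⟩
    have h1 := hle (renOE n _ N β) (Finset.mem_map.2 ⟨β, hβ, rfl⟩)
    simp only [Equiv.symm_apply_apply, hval] at h1
    exact h1

/-- The values of the coordinates of a point of an orbit give a compatible point of the
tropicalization. -/
theorem orbit_point (V : ValuationSubring ℂ) (π : V.ValueGroup) (hπ0 : π ≠ 0) (hπ1 : π < 1)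
    [Finite κ] (supp : κ → Finset (((Fin n ⊕ Fin b) ⊕ Fin N) →₀ ℕ))
    (a : κ → (((Fin n ⊕ Fin b) ⊕ Fin N) →₀ ℕ) → ℂ)
    (e : κ → (((Fin n ⊕ Fin b) ⊕ Fin N) →₀ ℕ) → ℕ)
    (ha : ∀ q, ∀ β ∈ supp q, V.valuation (a q β) = π ^ e q β)
    {Γ : Finset ℂ} (hΓ : ∀ γ ∈ Γ, γ ∈ V) {τ : Fin b → ℍ} {x : Fin n → ℂ}
    (hmem : Sum.elim x (fun c => jj (τ c)) ∈ solO supp a)
    (cls : Fin n → Option (Fin b)) (g : Fin n → Matrix (Fin 2) (Fin 2) ℤ) (w : Fin n → ℍ)
    (hg : ∀ i, 0 < (g i).det) (hxw : ∀ i, x i = jj (w i))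
    (hint : ∀ i, cls i = none → IsIntegral (Algebra.adjoin ℤ (Γ : Set ℂ)) (x i))
    (hcls : ∀ i c, cls i = some c →
      (w i : ℂ) * (g i 1 0 * τ c + g i 1 1) = g i 0 0 * τ c + g i 0 1) :
    ∃ W : (Fin n ⊕ Fin b) ⊕ Fin N → WithTop ℚ, (∀ q, TropAt (supp q) (e q) W) ∧
      CompatibleO cls (fun i => (g i).det.toNat) W := by
  classical
  obtain ⟨y, hy⟩ := hmem
  let x' : Fin n ⊕ Fin b → ℂ := Sum.elim x (fun c => jj (τ c))
  let z : (Fin (n + b) ⊕ Fin 0) ⊕ Fin N → ℂ := fun i => (Sum.elim x' y) (renO n b N i)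
  let cls' : Fin (n + b) → Option (Fin b) := fun i => Sum.elim cls some (finSumFinEquiv.symm i)
  let g' : Fin (n + b) → Matrix (Fin 2) (Fin 2) ℤ := fun i =>
    Sum.elim g (fun _ => 1) (finSumFinEquiv.symm i)
  let w' : Fin (n + b) → ℍ := fun i => Sum.elim w τ (finSumFinEquiv.symm i)
  have hg' : ∀ i, 0 < (g' i).det := by
    intro i
    obtain ⟨i, rfl⟩ := finSumFinEquiv.surjective i
    rcases i with i | c
    · simpa only [g', Equiv.symm_apply_apply, Sum.elim_inl] using hg i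
    · simp [g']
  have hz : ∀ i, z (Sum.inl (Sum.inl i)) = x' (finSumFinEquiv.symm i) := fun i => rfl
  have hxw' : ∀ i, z (Sum.inl (Sum.inl i)) = jj (w' i) := by
    intro i
    obtain ⟨i, rfl⟩ := finSumFinEquiv.surjective i
    rw [hz]
    rcases i with i | c
    · simpa only [x', w', Equiv.symm_apply_apply, Sum.elim_inl] using hxw i
    · simp only [x', w', Equiv.symm_apply_apply, Sum.elim_inr]
  have hcls' : ∀ i c, cls' i = some c →
      (w' i : ℂ) * (g' i 1 0 * τ c + g' i 1 1) = g' i 0 0 * τ c + g' i 0 1 := by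
    intro i c hi
    obtain ⟨i, rfl⟩ := finSumFinEquiv.surjective i
    rcases i with i | c'
    · simp only [cls', w', g', Equiv.symm_apply_apply, Sum.elim_inl] at hi ⊢
      exact hcls i c hi
    · simp only [cls', w', g', Equiv.symm_apply_apply, Sum.elim_inr] at hi ⊢
      obtain rfl : c' = c := Option.some.inj hi
      simp
  have hΛ : ∀ u : Algebra.adjoin ℤ (Γ : Set ℂ), (u : ℂ) ∈ V := by
    intro u
    have hle : Algebra.adjoin ℤ (Γ : Set ℂ) ≤ subalgebraOfSubring V.toSubring :=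
      Algebra.adjoin_le fun γ hγ => hΓ γ hγ
    exact hle u.2
  obtain ⟨W, hW1, hW2⟩ := compat_point V π hπ0 hπ1
    (fun q => (supp q).map (renOE n b N).toEmbedding) (fun q β => a q ((renOE n b N).symm β))
    (fun q β => e q ((renOE n b N).symm β)) (fun q β hβ => by
      obtain ⟨β', hβ', rfl⟩ := Finset.mem_map.1 hβ
      simp only [Equiv.coe_toEmbedding, Equiv.symm_apply_apply]
      exact ha q β' hβ') z (fun q => by
      rw [Finset.sum_map]
      rw [← hy q]
      refine Finset.sum_congr rfl fun β _ => ?_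
      simp only [Equiv.coe_toEmbedding, Equiv.symm_apply_apply]
      congr 1
      rw [← Equiv.prod_comp (renO n b N)
        (fun i => (Sum.elim x' y : (Fin n ⊕ Fin b) ⊕ Fin N → ℂ) i ^ β i)]
      refine Finset.prod_congr rfl fun i _ => ?_
      rw [renOE_apply]) cls' (fun i => (g' i).det.toNat)
    (fun i => by
      have := hg' i
      omega)
    (fun i hi => by
      rw [hz, ValuationSubring.valuation_le_one_iff]
      obtain ⟨i, rfl⟩ := finSumFinEquiv.surjective i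
      rcases i with i | c'
      · simp only [cls', Equiv.symm_apply_apply, Sum.elim_inl] at hi
        simp only [x', Equiv.symm_apply_apply, Sum.elim_inl]
        rw [← ValuationSubring.valuation_le_one_iff]
        exact Pool.Agent.TH526.ZL.mem_of_int V (fun u => by
          rw [ValuationSubring.valuation_le_one_iff]
          exact hΛ u) (hint i hi)
      · simp [cls'] at hi)
    (fun i j c hi hj => by
      rw [← FD.toNat_mul' (hg' i) (hg' j), ← eval_relPoly]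
      exact eval_relPoly_eq_zero (hg' i) (hg' j) (hcls' i c hi) (hcls' j c hj) (hxw' i) (hxw' j))
    (fun j => j.elim0) ⊥ (fun c hc => by simp)
  refine ⟨W ∘ (renO n b N).symm, fun q => trop_renO _ _ _ (hW1 q), fun i => ⟨fun hi => ?_,
    fun c hi => ?_⟩⟩
  · have h1 := hW2.1 (finSumFinEquiv (Sum.inl i)) (by
      simp only [cls', Equiv.symm_apply_apply, Sum.elim_inl]
      exact hi)
    exact h1
  · have h1 := hW2.2.1 (finSumFinEquiv (Sum.inl i)) (finSumFinEquiv (Sum.inr c)) c (by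
      simp only [cls', Equiv.symm_apply_apply, Sum.elim_inl]
      exact hi) (by
      simp only [cls', Equiv.symm_apply_apply, Sum.elim_inr])
    have h2 : (g' (finSumFinEquiv (Sum.inl i))).det = (g i).det := by
      simp only [g', Equiv.symm_apply_apply, Sum.elim_inl]
    have h3 : (g' (finSumFinEquiv (Sum.inr c))).det = 1 := by
      simp only [g', Equiv.symm_apply_apply, Sum.elim_inr, Matrix.det_one]
    beta_reduce at h1
    rw [h2, h3] at h1
    rcases h1 with h1 | ⟨u, v, hu, hv, hu0, hv0, hsq⟩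
    · exact Or.inl h1
    · refine Or.inr ⟨u, v, hu, hv, hu0, hv0, ?_⟩
      simpa using hsq

/-- Points of orbits on the members of families of subvarieties of `Y(1)^n` with several integral
parameters. -/
theorem manyOrbits [Finite κ] {M : ℕ}
    (supp : κ → Finset (((Fin n ⊕ Fin b) ⊕ Fin N) →₀ ℕ))
    (c : κ → (((Fin n ⊕ Fin b) ⊕ Fin N) →₀ ℕ) → Polynomial (MvPolynomial (Fin s) ℤ))
    (h : Fin M → Polynomial (MvPolynomial (Fin s) ℤ)) (hdeg : ∀ l, 0 < (h l).natDegree)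
    (e : Fin M → κ → (((Fin n ⊕ Fin b) ⊕ Fin N) →₀ ℕ) → ℕ)
    (he : ∀ l q, ∀ β ∈ supp q, HasOrd (h l) (c q β) (e l q β)) (hgen : GenericO supp e)
    (Γ : Finset ℂ) (ε : ℝ) (hε : 0 < ε) :
    ∃ C : ℝ, ∀ B : ℕ, 1 ≤ B →
      ({z : ℤ × (Fin s → ℤ) | |z.1| ≤ B ∧ (∀ i, |z.2 i| ≤ B) ∧
        ∃ (x : Fin n → ℂ) (τ : Fin b → ℍ), x ∈ orbit Γ τ ∧ Sum.elim x (fun c => jj (τ c)) ∈
          solO supp (fun q β => ((ev z.1 z.2 (c q β) : ℤ) : ℂ))}.ncard : ℝ) ≤
            C * (B : ℝ) ^ ((s : ℝ) + ε) := by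
  classical
  have := Fintype.ofFinite κ
  let ι := Σ q : κ, {β // β ∈ supp q}
  have hg : ∀ (l : Fin M) (x : ι), ∃ g, c x.1 x.2 = h l ^ e l x.1 x.2 * g ∧ CoprimeTo (h l) g :=
    fun l x => he l x.1 _ x.2.2
  choose g hg1 hg2 using hg
  let G : Fin M → Polynomial (MvPolynomial (Fin s) ℤ) := fun l => ∏ x : ι, g l x
  have hcop : ∀ l, CoprimeTo (h l) (G l) := fun l => CoprimeTo.prod _ _ (hg2 l)
  choose P₁ hP₁ using fun l => count_bad (h l) (G l) (hdeg l) (hcop l) hε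
  obtain ⟨D₀, halg⟩ := Pool.Agent.W466.ZC.exists_val (fun z : Γ => (z : ℂ))
  let P₀ : ℕ := D₀ + ∑ l, P₁ l
  have hP₀ : ∀ l, P₁ l ≤ P₀ := fun l =>
    (Finset.single_le_sum (f := P₁) (fun _ _ => Nat.zero_le _) (Finset.mem_univ l)).trans
      (Nat.le_add_left _ _)
  choose C hC hcount using fun l => hP₁ l P₀ (hP₀ l)
  refine ⟨∑ l, C l, fun B hB => ?_⟩
  let Box : Finset (ℤ × (Fin s → ℤ)) := Finset.Icc (-(B : ℤ)) B ×ˢ
    (Fintype.piFinset fun _ : Fin s => Finset.Icc (-(B : ℤ)) B)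
  let Bad : Fin M → Finset (ℤ × (Fin s → ℤ)) := fun l => Box.filter
    fun z : ℤ × (Fin s → ℤ) => ev z.1 z.2 (h l) = 0 ∨
      ∀ p ∈ (ev z.1 z.2 (h l)).natAbs.primeFactors, P₀ < p → (p : ℤ) ∣ ev z.1 z.2 (G l)
  have hsub : {z : ℤ × (Fin s → ℤ) | |z.1| ≤ B ∧ (∀ i, |z.2 i| ≤ B) ∧
        ∃ (x : Fin n → ℂ) (τ : Fin b → ℍ), x ∈ orbit Γ τ ∧ Sum.elim x (fun c => jj (τ c)) ∈
          solO supp (fun q β => ((ev z.1 z.2 (c q β) : ℤ) : ℂ))} ⊆
            ((Finset.univ.biUnion Bad : Finset _) : Set _) := by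
    rintro z ⟨hz1, hz2, x, τ, hx, hmem⟩
    by_contra hcon
    rw [Finset.mem_coe, Finset.mem_biUnion] at hcon
    push Not at hcon
    have hzBox : z ∈ Box := Finset.mem_product.2 ⟨Finset.mem_Icc.2 (abs_le.1 hz1),
      Fintype.mem_piFinset.2 fun i => Finset.mem_Icc.2 (abs_le.1 (hz2 i))⟩
    obtain ⟨cls, gg, w, hgg, hxw, hint, hcls⟩ := orbit_type hx
    obtain ⟨l, hl⟩ := hgen cls (fun i => (gg i).det.toNat) (fun i => by
      have := hgg i
      omega)
    have h1 := hcon l (Finset.mem_univ l)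
    have h2 : ¬ (ev z.1 z.2 (h l) = 0 ∨ ∀ p ∈ (ev z.1 z.2 (h l)).natAbs.primeFactors, P₀ < p →
        (p : ℤ) ∣ ev z.1 z.2 (G l)) := fun h3 => h1 (Finset.mem_filter.2 ⟨hzBox, h3⟩)
    push Not at h2
    obtain ⟨h0, p, hp', hpP, hpG⟩ := h2
    have hp : p.Prime := Nat.prime_of_mem_primeFactors hp'
    have hph : (p : ℤ) ∣ ev z.1 z.2 (h l) := Int.natCast_dvd.2 (Nat.dvd_of_mem_primeFactors hp')
    obtain ⟨V, hV, hVΓ⟩ := halg p hp (lt_of_le_of_lt (Nat.le_add_right _ _) hpP)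
    have hp1 : V.valuation (p : ℂ) < 1 := by rwa [ValuationSubring.mem_nonunits_iff] at hV
    have hintV : ∀ u : ℤ, V.valuation (u : ℂ) ≤ 1 := fun u => by
      rw [ValuationSubring.valuation_le_one_iff]
      exact intCast_mem V u
    obtain ⟨W, hW1, hW2⟩ := orbit_point V (V.valuation ((ev z.1 z.2 (h l) : ℤ) : ℂ)) (by
        rw [Valuation.ne_zero_iff]
        exact_mod_cast h0) (by
        obtain ⟨w, hw⟩ := hph
        rw [hw]
        push_cast
        rw [map_mul]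
        exact (mul_le_of_le_one_right' (hintV w)).trans_lt hp1) supp
      (fun q β => ((ev z.1 z.2 (c q β) : ℤ) : ℂ)) (e l) (fun q β hβ => by
        have h1 := hg1 l ⟨q, β, hβ⟩
        have h2 : ¬ (p : ℤ) ∣ ev z.1 z.2 (g l ⟨q, β, hβ⟩) := by
          intro h3
          apply hpG
          change (p : ℤ) ∣ ev z.1 z.2 (∏ x : ι, g l x)
          rw [map_prod]
          exact h3.trans (Finset.dvd_prod_of_mem _ (Finset.mem_univ (⟨q, β, hβ⟩ : ι)))
        have h3 : ev z.1 z.2 (c q β) =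
            ev z.1 z.2 (h l) ^ e l q β * ev z.1 z.2 (g l ⟨q, β, hβ⟩) := by
          rw [h1, map_mul, map_pow]
        rw [h3]
        push_cast
        rw [map_mul, map_pow, Pool.Agent.W466.ZP.int_unit V hp hV _ h2, mul_one])
      (fun γ hγ => hVΓ ⟨γ, hγ⟩) hmem cls gg w hgg hxw hint hcls
    exact hl W hW1 hW2
  have hcard : ((Finset.univ.biUnion Bad).card : ℝ) ≤ ∑ l, ((Bad l).card : ℝ) := by
    exact_mod_cast Finset.card_biUnion_le
  calc _ ≤ ((((Finset.univ.biUnion Bad : Finset _) : Set (ℤ × (Fin s → ℤ))).ncard : ℕ) : ℝ) := by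
        exact_mod_cast Set.ncard_le_ncard hsub (Finset.finite_toSet _)
    _ = ((Finset.univ.biUnion Bad).card : ℝ) := by rw [Set.ncard_coe_finset]
    _ ≤ ∑ l, ((Bad l).card : ℝ) := hcard
    _ ≤ ∑ l, C l * (B : ℝ) ^ ((s : ℝ) + ε) := Finset.sum_le_sum fun l _ => hcount l B hB
    _ = (∑ l, C l) * (B : ℝ) ^ ((s : ℝ) + ε) := by rw [Finset.sum_mul]

end Pool.Agent.R424.MP
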