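import Pool.Agent.R424.MP.Main
import Pool.Agent.R424.MP.CntP
import Pool.Agent.R424.PT.Main

/-!
Families of subvarieties of the powers of elliptic schemes with several integral parameters (helper
file).
-/

set_option autoImplicit false

namespace Pool.Agent.R424.MP

open MvPolynomial Pool.Agent.R424.TG Pool.Agent.R424.PT
open Pool.Agent.Results.MP_28d749_ag.RandomMultisections (curve)

variable {s r q N : ℕ} {κ : Type}

/-- Pink's conjecture for almost all members of families of subvarieties of the powers of elliptic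
schemes with several integral parameters. -/
theorem manyPink [Finite κ] {m M : ℕ} (supp : κ → Finset ((Coord r q ⊕ Fin N) →₀ ℕ))
    (c : κ → ((Coord r q ⊕ Fin N) →₀ ℕ) → Polynomial (MvPolynomial (Fin s) ℤ))
    (h : Fin M → Polynomial (MvPolynomial (Fin s) ℤ)) (hlin : ∀ l, IsLin (h l))
    (e : Fin M → κ → ((Coord r q ⊕ Fin N) →₀ ℕ) → ℕ)
    (he : ∀ l j, ∀ β ∈ supp j, HasOrd (h l) (c j β) (e l j β)) (hgen : GenericP m supp e)
    (ε : ℝ) (hε : 0 < ε) :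
    ∃ C : ℝ, ∀ B : ℕ, 1 ≤ B →
      ({z : ℤ × (Fin s → ℤ) | |z.1| ≤ B ∧ (∀ i, |z.2 i| ≤ B) ∧
        ¬ NoAtypicalP m (OnX supp (fun j β => ((ev z.1 z.2 (c j β) : ℤ) : ℂ)) :
          ∀ x : Fin 2 ⊕ Fin r → ℂ, (Fin q → (curve (x (Sum.inl 0)) (x (Sum.inl 1))).Point) →
            Prop)}.ncard : ℝ) ≤ C * (B : ℝ) ^ ((s : ℝ) + 1 / 2 + ε) := by
  classical
  have := Fintype.ofFinite κ
  let ι := Σ j : κ, {β // β ∈ supp j}
  have hg : ∀ (l : Fin M) (x : ι), ∃ g, c x.1 x.2 = h l ^ e l x.1 x.2 * g ∧ CoprimeTo (h l) g :=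
    fun l x => he l x.1 _ x.2.2
  choose g hg1 hg2 using hg
  let G : Fin M → Polynomial (MvPolynomial (Fin s) ℤ) := fun l => ∏ x : ι, g l x
  have hcop : ∀ l, CoprimeTo (h l) (G l) := fun l => CoprimeTo.prod _ _ (hg2 l)
  choose P₁ hP₁ using fun l => count_badP (h l) (G l) (hlin l) (hcop l) hε
  let P₀ : ℕ := ∑ l, P₁ l
  have hP₀ : ∀ l, P₁ l ≤ P₀ := fun l =>
    Finset.single_le_sum (f := P₁) (fun _ _ => Nat.zero_le _) (Finset.mem_univ l)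
  choose C hC hcount using fun l => hP₁ l P₀ (hP₀ l)
  refine ⟨∑ l, C l, fun B hB => ?_⟩
  let Box : Finset (ℤ × (Fin s → ℤ)) := Finset.Icc (-(B : ℤ)) B ×ˢ
    (Fintype.piFinset fun _ : Fin s => Finset.Icc (-(B : ℤ)) B)
  let Bad : Fin M → Finset (ℤ × (Fin s → ℤ)) := fun l => Box.filter
    fun z : ℤ × (Fin s → ℤ) => ev z.1 z.2 (h l) = 0 ∨
      ∀ p ∈ (ev z.1 z.2 (h l)).natAbs.primeFactors, P₀ < p →
        (p : ℤ) ^ 2 ∣ ev z.1 z.2 (h l) ∨ (p : ℤ) ∣ ev z.1 z.2 (G l)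
  have hsub : {z : ℤ × (Fin s → ℤ) | |z.1| ≤ B ∧ (∀ i, |z.2 i| ≤ B) ∧
        ¬ NoAtypicalP m (OnX supp (fun j β => ((ev z.1 z.2 (c j β) : ℤ) : ℂ)) :
          ∀ x : Fin 2 ⊕ Fin r → ℂ, (Fin q → (curve (x (Sum.inl 0)) (x (Sum.inl 1))).Point) →
            Prop)} ⊆ ((Finset.univ.biUnion Bad : Finset _) : Set _) := by
    rintro z ⟨hz1, hz2, hbad⟩
    by_contra hcon
    rw [Finset.mem_coe, Finset.mem_biUnion] at hcon
    push Not at hcon
    have hzBox : z ∈ Box := Finset.mem_product.2 ⟨Finset.mem_Icc.2 (abs_le.1 hz1),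
      Fintype.mem_piFinset.2 fun i => Finset.mem_Icc.2 (abs_le.1 (hz2 i))⟩
    have hgood : ∀ l, ∃ p : ℕ, p.Prime ∧ (p : ℤ) ∣ ev z.1 z.2 (h l) ∧
        ¬ (p : ℤ) ^ 2 ∣ ev z.1 z.2 (h l) ∧ ¬ (p : ℤ) ∣ ev z.1 z.2 (G l) := by
      intro l
      have h1 := hcon l (Finset.mem_univ l)
      have h2 : ¬ (ev z.1 z.2 (h l) = 0 ∨ ∀ p ∈ (ev z.1 z.2 (h l)).natAbs.primeFactors, P₀ < p →
          (p : ℤ) ^ 2 ∣ ev z.1 z.2 (h l) ∨ (p : ℤ) ∣ ev z.1 z.2 (G l)) := fun h3 =>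
        h1 (Finset.mem_filter.2 ⟨hzBox, h3⟩)
      push Not at h2
      obtain ⟨h3, p, hp, hpP, hp2, hpG⟩ := h2
      exact ⟨p, Nat.prime_of_mem_primeFactors hp,
        Int.natCast_dvd.2 (Nat.dvd_of_mem_primeFactors hp), hp2, hpG⟩
    choose p hp hph hp2 hpG using hgood
    apply hbad
    refine coreP m supp _ e hgen p hp fun l j β hβ V hV => ?_
    have h1 := hg1 l ⟨j, β, hβ⟩
    have h2 : ¬ (p l : ℤ) ∣ ev z.1 z.2 (g l ⟨j, β, hβ⟩) := by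
      intro h3
      apply hpG l
      change (p l : ℤ) ∣ ev z.1 z.2 (∏ x : ι, g l x)
      rw [map_prod]
      exact h3.trans (Finset.dvd_prod_of_mem _ (Finset.mem_univ (⟨j, β, hβ⟩ : ι)))
    have h3 : ev z.1 z.2 (c j β) = ev z.1 z.2 (h l) ^ e l j β * ev z.1 z.2 (g l ⟨j, β, hβ⟩) := by
      rw [h1, map_mul, map_pow]
    obtain ⟨u, hu⟩ := hph l
    have hpu : ¬ (p l : ℤ) ∣ u := by
      rintro ⟨u', rfl⟩
      exact hp2 l ⟨u', by rw [hu]; ring⟩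
    have h4 : V.valuation ((ev z.1 z.2 (h l) : ℤ) : ℂ) = V.valuation (p l : ℂ) := by
      rw [hu]
      push_cast
      rw [map_mul, Pool.Agent.W466.ZP.int_unit V (hp l) hV _ hpu, mul_one]
    rw [h3]
    push_cast
    rw [map_mul, map_pow, h4, Pool.Agent.W466.ZP.int_unit V (hp l) hV _ h2, mul_one]
  have hcard : ((Finset.univ.biUnion Bad).card : ℝ) ≤ ∑ l, ((Bad l).card : ℝ) := by
    exact_mod_cast Finset.card_biUnion_le
  calc _ ≤ ((((Finset.univ.biUnion Bad : Finset _) : Set (ℤ × (Fin s → ℤ))).ncard : ℕ) : ℝ) := by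
        exact_mod_cast Set.ncard_le_ncard hsub (Finset.finite_toSet _)
    _ = ((Finset.univ.biUnion Bad).card : ℝ) := by rw [Set.ncard_coe_finset]
    _ ≤ ∑ l, ((Bad l).card : ℝ) := hcard
    _ ≤ ∑ l, C l * (B : ℝ) ^ ((s : ℝ) + 1 / 2 + ε) :=
        Finset.sum_le_sum fun l _ => hcount l B hB
    _ = (∑ l, C l) * (B : ℝ) ^ ((s : ℝ) + 1 / 2 + ε) := by rw [Finset.sum_mul]

end Pool.Agent.R424.MP
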