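import Pool.Agent.R424.MP.Main

/-!
The case of the pure Shimura varieties `Y(1)^n` (helper file).
-/

set_option autoImplicit false

namespace Pool.Agent.R424.MP

open MvPolynomial Pool.Agent.R424.TG Pool.Agent.W282.ZP
open Pool.Agent.Y152.RP.FamM (NoAtypical SpecialVariety coset)

variable {s n N : ℕ} {κ : Type}

/-- The set of the points `x` of `Y(1)^n = ℂ^n` for which there is a `y ∈ ℂ^N` such that all polynomials
with the exponents `supp q` and the coefficients `b q β` vanish at `(x, y)`. -/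
def solC (supp : κ → Finset ((Fin n ⊕ Fin N) →₀ ℕ)) (b : κ → ((Fin n ⊕ Fin N) →₀ ℕ) → ℂ) :
    Set (Fin n → ℂ) :=
  {x | ∃ y : Fin N → ℂ, ∀ q,
    ∑ β ∈ supp q, b q β * ∏ i, (Sum.elim x y : Fin n ⊕ Fin N → ℂ) i ^ β i = 0}

/-- `X` has no atypical intersection with the special subvarieties `Z` of `Y(1)^n`, `dim Z = r`, if
`X` is regarded as a set of dimension `m`: every irreducible closed subset of `X ∩ Z` has dimension at
most `r + m - n`, and every point of `X ∩ Z` has at most this transcendence degree over `K`; in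
particular `X ∩ Z` is empty if `r + m < n`. -/
def NoAtypicalC {Λ : Type} [CommRing Λ] (f : Λ →+* ℂ) (K : Subfield ℂ) (m : ℕ)
    (X : Set (Fin n → ℂ)) : Prop :=
  ∀ (r : ℕ) (Z : SpecialVariety f n r),
    (∀ A ⊆ X ∩ Z.locus, zcl A ⊆ A → (idealOf A).IsPrime →
      zdim A + (n : Cardinal) ≤ (r : Cardinal) + (m : Cardinal)) ∧
    ∀ x ∈ X, x ∈ Z.locus → ∀ S : Finset (Fin n), AlgebraicIndependent K (fun i : S => x i) →
      S.card + n ≤ r + m

/-- A point `w` with rational or infinite coordinates is compatible with the special subvarieties of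
`Y(1)^n` of the type `(cls, d)`: the constant coordinates are not negative, and two coordinates in
one class are both not negative, or both negative with `d i * d j` times their product a square. -/
def CompatibleC {r : ℕ} (cls : Fin n → Option (Fin r)) (d : Fin n → ℕ)
    (w : Fin n ⊕ Fin N → WithTop ℚ) : Prop :=
  (∀ i, cls i = none → 0 ≤ w (Sum.inl i)) ∧
  ∀ i j c, cls i = some c → cls j = some c →
    (0 ≤ w (Sum.inl i) ∧ 0 ≤ w (Sum.inl j)) ∨
    ∃ u v : ℚ, w (Sum.inl i) = (u : WithTop ℚ) ∧ w (Sum.inl j) = (v : WithTop ℚ) ∧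
      u < 0 ∧ v < 0 ∧ IsSquare ((d i : ℚ) * d j * (u * v))

/-- The orders `e l q β` exclude all types `(cls, d)` of special subvarieties of dimension less than
`n - m`: for every type there is an `l` such that the tropicalization has no compatible point. -/
def GenericC {M : ℕ} (m : ℕ) (supp : κ → Finset ((Fin n ⊕ Fin N) →₀ ℕ))
    (e : Fin M → κ → ((Fin n ⊕ Fin N) →₀ ℕ) → ℕ) : Prop :=
  ∀ (r : ℕ) (cls : Fin n → Option (Fin r)) (d : Fin n → ℕ), (∀ i, 0 < d i) → r + m < n →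
    ∃ l, ∀ w : Fin n ⊕ Fin N → WithTop ℚ, (∀ q, TropAt (supp q) (e l q) w) →
      ¬ CompatibleC cls d w

theorem noAtypicalC_of {Λ : Type} [CommRing Λ] {f : Λ →+* ℂ} {K : Subfield ℂ} [Countable K]
    {m : ℕ} {X : Set (Fin n → ℂ)} {X' : Set (Fin n ⊕ Fin 0 → ℂ)} (h : NoAtypical f K m X')
    (hX : ∀ x ∈ X, (Sum.elim x (fun i : Fin 0 => i.elim0) : Fin n ⊕ Fin 0 → ℂ) ∈ X') :
    NoAtypicalC f K m X := by
  classical
  intro r Z
  have hpt : ∀ x ∈ X, x ∈ Z.locus → ∀ S : Finset (Fin n),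
      AlgebraicIndependent K (fun i : S => x i) → S.card + n ≤ r + m := by
    intro x hx hxZ S hS
    have h1 := (h r Z ⊥ (fun i => i.elim0) (fun i => i.elim0)).2 _ (hX x hx) hxZ
      ⟨fun i => i.elim0, fun a ha => by simp⟩ (S.map Function.Embedding.inl) (by
        let φ : {i // i ∈ S.map (Function.Embedding.inl : Fin n ↪ Fin n ⊕ Fin 0)} → S := fun i =>
          ⟨Sum.elim id (fun i : Fin 0 => i.elim0) i.1, by
            obtain ⟨i, hi⟩ := i
            obtain ⟨j, hj, rfl⟩ := Finset.mem_map.1 hi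
            exact hj⟩
        have hφ : Function.Injective φ := by
          rintro ⟨i, hi⟩ ⟨i', hi'⟩ heq
          obtain ⟨j, hj, rfl⟩ := Finset.mem_map.1 hi
          obtain ⟨j', hj', rfl⟩ := Finset.mem_map.1 hi'
          have h2 : j = j' := congrArg (fun x : S => (x : Fin n)) heq
          subst h2
          rfl
        have h3 := hS.comp φ hφ
        have h4 : (fun i : {i // i ∈ S.map (Function.Embedding.inl : Fin n ↪ Fin n ⊕ Fin 0)} =>
            (Sum.elim x (fun i : Fin 0 => i.elim0) : Fin n ⊕ Fin 0 → ℂ) i) =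
            (fun i : S => x i) ∘ φ := by
          funext ⟨i, hi⟩
          obtain ⟨j, hj, rfl⟩ := Finset.mem_map.1 hi
          rfl
        rw [h4]
        exact h3)
    rw [Finset.card_map] at h1
    omega
  refine ⟨fun A hA hcl hprime => ?_, hpt⟩
  obtain ⟨w, hwA, -, T, hT, hdim⟩ := Pool.Agent.W282.SI.generic_dim' K A hprime
    (β := Empty) (fun j => j.elim) fun j => j.elim
  have hwA' : w ∈ A := hcl hwA
  have h4 := hpt w (hA hwA').1 (hA hwA').2 T hT
  calc zdim A + (n : Cardinal) ≤ (T.card : Cardinal) + (n : Cardinal) := by gcongr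
    _ = ((T.card + n : ℕ) : Cardinal) := by push_cast; rfl
    _ ≤ ((r + m : ℕ) : Cardinal) := by exact_mod_cast h4
    _ = (r : Cardinal) + (m : Cardinal) := by push_cast; rfl

/-- The renumbering of the coordinates. -/
def renC (n N : ℕ) : (Fin n ⊕ Fin 0) ⊕ Fin N ≃ Fin n ⊕ Fin N :=
  Equiv.sumCongr (Equiv.sumEmpty (Fin n) (Fin 0)) (Equiv.refl _)

/-- The renumbering of the exponents. -/
noncomputable def renCE (n N : ℕ) : ((Fin n ⊕ Fin N) →₀ ℕ) ≃ (((Fin n ⊕ Fin 0) ⊕ Fin N) →₀ ℕ) where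
  toFun := Finsupp.equivMapDomain (renC n N).symm
  invFun := Finsupp.equivMapDomain (renC n N)
  left_inv β := by
    ext i
    simp
  right_inv β := by
    ext i
    simp

theorem renCE_apply (β : (Fin n ⊕ Fin N) →₀ ℕ) (i : (Fin n ⊕ Fin 0) ⊕ Fin N) :
    renCE n N β i = β (renC n N i) := rfl

theorem renC_elim (x : Fin n → ℂ) (y : Fin N → ℂ) (i : (Fin n ⊕ Fin 0) ⊕ Fin N) :
    (Sum.elim (Sum.elim x (fun i : Fin 0 => i.elim0)) y : (Fin n ⊕ Fin 0) ⊕ Fin N → ℂ) i =
      (Sum.elim x y : Fin n ⊕ Fin N → ℂ) (renC n N i) := by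
  rcases i with (i | i) | i
  · rfl
  · exact i.elim0
  · rfl

theorem trop_renC (supp : Finset ((Fin n ⊕ Fin N) →₀ ℕ)) (e : ((Fin n ⊕ Fin N) →₀ ℕ) → ℕ)
    (w : (Fin n ⊕ Fin 0) ⊕ Fin N → WithTop ℚ)
    (h : TropAt (supp.map (renCE n N).toEmbedding) (fun β => e ((renCE n N).symm β)) w) :
    TropAt supp e (w ∘ (renC n N).symm) := by
  have hval : ∀ (β : (Fin n ⊕ Fin N) →₀ ℕ) (k : ℕ),
      value w (renCE n N β) k = value (w ∘ (renC n N).symm) β k := by
    intro β k
    rw [value, value]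
    congr 1
    rw [← Equiv.sum_comp (renC n N) (fun i => β i • (w ∘ (renC n N).symm) i)]
    refine Finset.sum_congr rfl fun i _ => ?_
    rw [renCE_apply, Function.comp_apply, Equiv.symm_apply_apply]
  rcases h with h | ⟨a, ha, b, hb, hab, heq, hle⟩
  · left
    intro β hβ
    have h1 := h (renCE n N β) (Finset.mem_map.2 ⟨β, hβ, rfl⟩)
    simp only [Equiv.symm_apply_apply, hval] at h1
    exact h1
  · right
    obtain ⟨a', ha', rfl⟩ := Finset.mem_map.1 ha
    obtain ⟨b', hb', rfl⟩ := Finset.mem_map.1 hb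
    simp only [Equiv.coe_toEmbedding, Equiv.symm_apply_apply, hval] at heq hle hab
    refine ⟨a', ha', b', hb', fun h => hab (by rw [h]), heq, fun β hβ => ?_⟩
    have h1 := hle (renCE n N β) (Finset.mem_map.2 ⟨β, hβ, rfl⟩)
    simp only [Equiv.symm_apply_apply, hval] at h1
    exact h1

/-- Families of subvarieties of `Y(1)^n` with several integral parameters. -/
theorem manyPure (K : Subfield ℂ) [Countable K] [Finite κ] {m M : ℕ}
    (supp : κ → Finset ((Fin n ⊕ Fin N) →₀ ℕ))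
    (c : κ → ((Fin n ⊕ Fin N) →₀ ℕ) → Polynomial (MvPolynomial (Fin s) ℤ))
    (h : Fin M → Polynomial (MvPolynomial (Fin s) ℤ)) (hdeg : ∀ l, 0 < (h l).natDegree)
    (e : Fin M → κ → ((Fin n ⊕ Fin N) →₀ ℕ) → ℕ)
    (he : ∀ l q, ∀ β ∈ supp q, HasOrd (h l) (c q β) (e l q β)) (hgen : GenericC m supp e)
    (Γ : Finset ℂ) (hΓ : ∀ γ ∈ Γ, IsAlgebraic ℚ γ) (hΓK : ∀ γ ∈ Γ, γ ∈ K) (ε : ℝ) (hε : 0 < ε) :
    ∃ C : ℝ, ∀ B : ℕ, 1 ≤ B →
      ({z : ℤ × (Fin s → ℤ) | |z.1| ≤ B ∧ (∀ i, |z.2 i| ≤ B) ∧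
        ¬ NoAtypicalC (algebraMap (Algebra.adjoin ℤ (Γ : Set ℂ)) ℂ) K m
          (solC supp (fun q β => ((ev z.1 z.2 (c q β) : ℤ) : ℂ)))}.ncard : ℝ) ≤
            C * (B : ℝ) ^ ((s : ℝ) + ε) := by
  classical
  obtain ⟨C, hC⟩ := manyT (k := 0) (m := m) K (fun q => (supp q).map (renCE n N).toEmbedding)
    (fun q β => c q ((renCE n N).symm β)) h hdeg (fun l q β => e l q ((renCE n N).symm β))
    (fun l q β hβ => by
      obtain ⟨β', hβ', rfl⟩ := Finset.mem_map.1 hβ
      simp only [Equiv.coe_toEmbedding, Equiv.symm_apply_apply]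
      exact he l q β' hβ') (fun r cls d L hd hr => by
      obtain ⟨l, hl⟩ := hgen r cls d hd (by omega)
      refine ⟨l, fun w hw hc => ?_⟩
      obtain ⟨h1, h2, -⟩ := hc
      exact hl (w ∘ (renC n N).symm) (fun q => trop_renC _ _ _ (hw q)) ⟨h1, h2⟩) Γ hΓ hΓK ε hε
  refine ⟨C, fun B hB => le_trans ?_ (hC B hB)⟩
  have hfin : {z : ℤ × (Fin s → ℤ) | |z.1| ≤ B ∧ (∀ i, |z.2 i| ≤ B) ∧
        ¬ NoAtypical (algebraMap (Algebra.adjoin ℤ (Γ : Set ℂ)) ℂ) K m
          (solutions (fun q => (supp q).map (renCE n N).toEmbedding)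
            (fun q β => ((ev z.1 z.2 (c q ((renCE n N).symm β)) : ℤ) : ℂ)) :
            Set (Fin n ⊕ Fin 0 → ℂ))}.Finite := by
    refine Set.Finite.subset (Finset.finite_toSet (Finset.Icc (-(B : ℤ)) B ×ˢ
      (Fintype.piFinset fun _ : Fin s => Finset.Icc (-(B : ℤ)) B))) ?_
    rintro z ⟨hz1, hz2, -⟩
    exact Finset.mem_coe.2 (Finset.mem_product.2 ⟨Finset.mem_Icc.2 (abs_le.1 hz1),
      Fintype.mem_piFinset.2 fun i => Finset.mem_Icc.2 (abs_le.1 (hz2 i))⟩)
  exact_mod_cast Set.ncard_le_ncard (by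
    rintro z ⟨hz1, hz2, hbad⟩
    refine ⟨hz1, hz2, fun hno => hbad (noAtypicalC_of hno ?_)⟩
    rintro x ⟨y, hy⟩
    refine ⟨fun j => j.elim0, y, fun q => ?_⟩
    rw [Finset.sum_map]
    rw [← hy q]
    refine Finset.sum_congr rfl fun β _ => ?_
    simp only [Equiv.coe_toEmbedding, Equiv.symm_apply_apply]
    congr 1
    rw [← Equiv.prod_comp (renC n N) (fun i => (Sum.elim x y : Fin n ⊕ Fin N → ℂ) i ^ β i)]
    refine Finset.prod_congr rfl fun i _ => ?_
    rw [renC_elim, renCE_apply]) hfin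

end Pool.Agent.R424.MP
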