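import Pool.Agent.R424.MP.Main

/-!
The case of tori (helper file).
-/

set_option autoImplicit false

namespace Pool.Agent.R424.MP

open MvPolynomial Pool.Agent.R424.TG Pool.Agent.W282.ZP
open Pool.Agent.Y152.RP.FamM (NoAtypical SpecialVariety coset)

variable {s k N : ℕ} {κ : Type}

/-- The set of the points `x` of the torus for which there is a `y ∈ ℂ^N` such that all polynomials
with the exponents `supp q` and the coefficients `b q β` vanish at `(x, y)`. -/
def solT (supp : κ → Finset ((Fin k ⊕ Fin N) →₀ ℕ)) (b : κ → ((Fin k ⊕ Fin N) →₀ ℕ) → ℂ) :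
    Set (Fin k → ℂ) :=
  {x | (∀ j, x j ≠ 0) ∧ ∃ y : Fin N → ℂ, ∀ q,
    ∑ β ∈ supp q, b q β * ∏ i, (Sum.elim x y : Fin k ⊕ Fin N → ℂ) i ^ β i = 0}

/-- `X` has no atypical intersection with the cosets `C` of algebraic subgroups of `G_m^k` by points
whose coordinates are units over `Λ`, `dim C = k - rank M`, if `X` is regarded as a set of dimension
`m`: every irreducible subset `A` of `X ∩ C`, closed in the torus, has dimension at most
`m - rank M = dim C + m - k`, and every point of `X ∩ C` has at most this transcendence degree over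
`K`. -/
def NoAtypicalT {Λ : Type} [CommRing Λ] (f : Λ →+* ℂ) (K : Subfield ℂ) (m : ℕ)
    (X : Set (Fin k → ℂ)) : Prop :=
  ∀ (M : Submodule ℤ (Fin k → ℤ)) (η : Fin k → ℂ),
    (∀ j, η j ≠ 0 ∧ f.IsIntegralElem (η j) ∧ f.IsIntegralElem (η j)⁻¹) →
    (∀ A ⊆ X ∩ coset M η, (∀ x ∈ zcl A, (∀ j, x j ≠ 0) → x ∈ A) → (idealOf A).IsPrime →
      zdim A + (Module.finrank ℤ M : Cardinal) ≤ (m : Cardinal)) ∧
    ∀ x ∈ X, x ∈ coset M η → ∀ S : Finset (Fin k), AlgebraicIndependent K (fun i : S => x i) →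
      S.card + Module.finrank ℤ M ≤ m

/-- The orders `e l q β` exclude all linear subspaces `L` of `ℚ^k` of dimension less than `k - m`: for
every such `L` there is an `l` such that no point of the tropicalization has its torus coordinates in
`L`. -/
def GenericT {M : ℕ} (m : ℕ) (supp : κ → Finset ((Fin k ⊕ Fin N) →₀ ℕ))
    (e : Fin M → κ → ((Fin k ⊕ Fin N) →₀ ℕ) → ℕ) : Prop :=
  ∀ L : Submodule ℚ (Fin k → ℚ), Module.finrank ℚ L + m < k →
    ∃ l, ∀ w : Fin k ⊕ Fin N → WithTop ℚ, (∀ q, TropAt (supp q) (e l q) w) →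
      ¬ ∃ u ∈ L, ∀ j, w (Sum.inl j) = ((u j : ℚ) : WithTop ℚ)

theorem noAtypicalT_of {Λ : Type} [CommRing Λ] {f : Λ →+* ℂ} {K : Subfield ℂ} [Countable K]
    {m : ℕ} {X : Set (Fin k → ℂ)} (hX0 : ∀ x ∈ X, ∀ j, x j ≠ 0)
    {X' : Set (Fin 0 ⊕ Fin k → ℂ)} (h : NoAtypical f K m X')
    (hX : ∀ x ∈ X, (Sum.elim (fun i : Fin 0 => i.elim0) x : Fin 0 ⊕ Fin k → ℂ) ∈ X') :
    NoAtypicalT f K m X := by
  classical
  intro M η hη
  let Z : SpecialVariety f 0 0 :=
    { cls := fun i => i.elim0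
      surj := fun l => l.elim0
      mat := fun i => i.elim0
      det_pos := fun i => i.elim0
      const := fun i => i.elim0
      allowed := fun i => i.elim0 }
  have hpt : ∀ x ∈ X, x ∈ coset M η → ∀ S : Finset (Fin k),
      AlgebraicIndependent K (fun i : S => x i) → S.card + Module.finrank ℤ M ≤ m := by
    intro x hx hxC S hS
    have h1 := (h 0 Z M η hη).2 _ (hX x hx)
      ⟨fun i => i.elim0, fun i => i.elim0⟩ hxC (S.map Function.Embedding.inr) (by
        let φ : {i // i ∈ S.map (Function.Embedding.inr : Fin k ↪ Fin 0 ⊕ Fin k)} → S := fun i =>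
          ⟨Sum.elim (fun i : Fin 0 => i.elim0) id i.1, by
            obtain ⟨i, hi⟩ := i
            obtain ⟨j, hj, rfl⟩ := Finset.mem_map.1 hi
            exact hj⟩
        have hφ : Function.Injective φ := by
          rintro ⟨i, hi⟩ ⟨i', hi'⟩ heq
          obtain ⟨j, hj, rfl⟩ := Finset.mem_map.1 hi
          obtain ⟨j', hj', rfl⟩ := Finset.mem_map.1 hi'
          have h2 : j = j' := congrArg (fun x : S => (x : Fin k)) heq
          subst h2
          rfl
        have h3 := hS.comp φ hφ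
        have h4 : (fun i : {i // i ∈ S.map (Function.Embedding.inr : Fin k ↪ Fin 0 ⊕ Fin k)} =>
            (Sum.elim (fun i : Fin 0 => i.elim0) x : Fin 0 ⊕ Fin k → ℂ) i) =
            (fun i : S => x i) ∘ φ := by
          funext ⟨i, hi⟩
          obtain ⟨j, hj, rfl⟩ := Finset.mem_map.1 hi
          rfl
        rw [h4]
        exact h3)
    rw [Finset.card_map] at h1
    omega
  refine ⟨fun A hA hcl hprime => ?_, hpt⟩
  obtain ⟨w, hwA, hw0, T, hT, hdim⟩ := Pool.Agent.W282.SI.generic_dim' K A hprime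
    (β := Fin k) (fun j => (MvPolynomial.X j : MvPolynomial (Fin k) ℂ)) fun j hj => by
      have hne : A.Nonempty := by
        by_contra h0
        rw [Set.not_nonempty_iff_eq_empty] at h0
        apply hprime.ne_top
        rw [Ideal.eq_top_iff_one, mem_idealOf]
        intro x hx
        rw [h0] at hx
        exact absurd hx (Set.notMem_empty x)
      obtain ⟨a, ha⟩ := hne
      have h1 := mem_idealOf.1 hj a ha
      rw [eval_X] at h1
      exact hX0 a (hA ha).1 j h1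
  have hwA' : w ∈ A := hcl w hwA fun j => by
    have h1 := hw0 j
    rwa [eval_X] at h1
  have h4 := hpt w (hA hwA').1 (hA hwA').2 T hT
  calc zdim A + (Module.finrank ℤ M : Cardinal) ≤
        (T.card : Cardinal) + (Module.finrank ℤ M : Cardinal) := by gcongr
    _ = ((T.card + Module.finrank ℤ M : ℕ) : Cardinal) := by push_cast; rfl
    _ ≤ (m : Cardinal) := by exact_mod_cast h4

/-- The renumbering of the coordinates. -/
def ren (k N : ℕ) : (Fin 0 ⊕ Fin k) ⊕ Fin N ≃ Fin k ⊕ Fin N :=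
  Equiv.sumCongr (Equiv.emptySum (Fin 0) (Fin k)) (Equiv.refl _)

/-- The renumbering of the exponents. -/
noncomputable def renE (k N : ℕ) : ((Fin k ⊕ Fin N) →₀ ℕ) ≃ (((Fin 0 ⊕ Fin k) ⊕ Fin N) →₀ ℕ) where
  toFun := Finsupp.equivMapDomain (ren k N).symm
  invFun := Finsupp.equivMapDomain (ren k N)
  left_inv β := by
    ext i
    simp
  right_inv β := by
    ext i
    simp

theorem renE_apply (β : (Fin k ⊕ Fin N) →₀ ℕ) (i : (Fin 0 ⊕ Fin k) ⊕ Fin N) :
    renE k N β i = β (ren k N i) := rfl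

theorem ren_elim (x : Fin k → ℂ) (y : Fin N → ℂ) (i : (Fin 0 ⊕ Fin k) ⊕ Fin N) :
    (Sum.elim (Sum.elim (fun i : Fin 0 => i.elim0) x) y : (Fin 0 ⊕ Fin k) ⊕ Fin N → ℂ) i =
      (Sum.elim x y : Fin k ⊕ Fin N → ℂ) (ren k N i) := by
  rcases i with (i | i) | i
  · exact i.elim0
  · rfl
  · rfl

theorem trop_ren (supp : Finset ((Fin k ⊕ Fin N) →₀ ℕ)) (e : ((Fin k ⊕ Fin N) →₀ ℕ) → ℕ)
    (w : (Fin 0 ⊕ Fin k) ⊕ Fin N → WithTop ℚ)
    (h : TropAt (supp.map (renE k N).toEmbedding) (fun β => e ((renE k N).symm β)) w) :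
    TropAt supp e (w ∘ (ren k N).symm) := by
  have hval : ∀ (β : (Fin k ⊕ Fin N) →₀ ℕ) (n : ℕ),
      value w (renE k N β) n = value (w ∘ (ren k N).symm) β n := by
    intro β n
    rw [value, value]
    congr 1
    rw [← Equiv.sum_comp (ren k N) (fun i => β i • (w ∘ (ren k N).symm) i)]
    refine Finset.sum_congr rfl fun i _ => ?_
    rw [renE_apply, Function.comp_apply, Equiv.symm_apply_apply]
  rcases h with h | ⟨a, ha, b, hb, hab, heq, hle⟩
  · left
    intro β hβ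
    have h1 := h (renE k N β) (Finset.mem_map.2 ⟨β, hβ, rfl⟩)
    simp only [Equiv.symm_apply_apply, hval] at h1
    exact h1
  · right
    obtain ⟨a', ha', rfl⟩ := Finset.mem_map.1 ha
    obtain ⟨b', hb', rfl⟩ := Finset.mem_map.1 hb
    simp only [Equiv.coe_toEmbedding, Equiv.symm_apply_apply, hval] at heq hle hab
    refine ⟨a', ha', b', hb', fun h => hab (by rw [h]), heq, fun β hβ => ?_⟩
    have h1 := hle (renE k N β) (Finset.mem_map.2 ⟨β, hβ, rfl⟩)
    simp only [Equiv.symm_apply_apply, hval] at h1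
    exact h1

/-- Families of subvarieties of tori with several integral parameters. -/
theorem manyTorus (K : Subfield ℂ) [Countable K] [Finite κ] {m M : ℕ}
    (supp : κ → Finset ((Fin k ⊕ Fin N) →₀ ℕ))
    (c : κ → ((Fin k ⊕ Fin N) →₀ ℕ) → Polynomial (MvPolynomial (Fin s) ℤ))
    (h : Fin M → Polynomial (MvPolynomial (Fin s) ℤ)) (hdeg : ∀ l, 0 < (h l).natDegree)
    (e : Fin M → κ → ((Fin k ⊕ Fin N) →₀ ℕ) → ℕ)
    (he : ∀ l q, ∀ β ∈ supp q, HasOrd (h l) (c q β) (e l q β)) (hgen : GenericT m supp e)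
    (Γ : Finset ℂ) (hΓ : ∀ γ ∈ Γ, IsAlgebraic ℚ γ) (hΓK : ∀ γ ∈ Γ, γ ∈ K) (ε : ℝ) (hε : 0 < ε) :
    ∃ C : ℝ, ∀ B : ℕ, 1 ≤ B →
      ({z : ℤ × (Fin s → ℤ) | |z.1| ≤ B ∧ (∀ i, |z.2 i| ≤ B) ∧
        ¬ NoAtypicalT (algebraMap (Algebra.adjoin ℤ (Γ : Set ℂ)) ℂ) K m
          (solT supp (fun q β => ((ev z.1 z.2 (c q β) : ℤ) : ℂ)))}.ncard : ℝ) ≤
            C * (B : ℝ) ^ ((s : ℝ) + ε) := by
  classical
  obtain ⟨C, hC⟩ := manyT (n := 0) (m := m) K (fun q => (supp q).map (renE k N).toEmbedding)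
    (fun q β => c q ((renE k N).symm β)) h hdeg (fun l q β => e l q ((renE k N).symm β))
    (fun l q β hβ => by
      obtain ⟨β', hβ', rfl⟩ := Finset.mem_map.1 hβ
      simp only [Equiv.coe_toEmbedding, Equiv.symm_apply_apply]
      exact he l q β' hβ') (fun r cls d L _ hr => by
      obtain ⟨l, hl⟩ := hgen L (by omega)
      refine ⟨l, fun w hw hc => ?_⟩
      obtain ⟨-, -, u, hu, hwu⟩ := hc
      refine hl (w ∘ (ren k N).symm) (fun q => trop_ren _ _ _ (hw q)) ⟨u, hu, fun j => ?_⟩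
      exact hwu j) Γ hΓ hΓK ε hε
  refine ⟨C, fun B hB => le_trans ?_ (hC B hB)⟩
  have hfin : {z : ℤ × (Fin s → ℤ) | |z.1| ≤ B ∧ (∀ i, |z.2 i| ≤ B) ∧
        ¬ NoAtypical (algebraMap (Algebra.adjoin ℤ (Γ : Set ℂ)) ℂ) K m
          (solutions (fun q => (supp q).map (renE k N).toEmbedding)
            (fun q β => ((ev z.1 z.2 (c q ((renE k N).symm β)) : ℤ) : ℂ)) :
            Set (Fin 0 ⊕ Fin k → ℂ))}.Finite := by
    refine Set.Finite.subset (Finset.finite_toSet (Finset.Icc (-(B : ℤ)) B ×ˢ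
      (Fintype.piFinset fun _ : Fin s => Finset.Icc (-(B : ℤ)) B))) ?_
    rintro z ⟨hz1, hz2, -⟩
    exact Finset.mem_coe.2 (Finset.mem_product.2 ⟨Finset.mem_Icc.2 (abs_le.1 hz1),
      Fintype.mem_piFinset.2 fun i => Finset.mem_Icc.2 (abs_le.1 (hz2 i))⟩)
  exact_mod_cast Set.ncard_le_ncard (by
    rintro z ⟨hz1, hz2, hbad⟩
    refine ⟨hz1, hz2, fun hno => hbad (noAtypicalT_of (fun x hx => hx.1) hno ?_)⟩
    rintro x ⟨hx0, y, hy⟩
    refine ⟨fun j => hx0 j, y, fun q => ?_⟩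
    rw [Finset.sum_map]
    rw [← hy q]
    refine Finset.sum_congr rfl fun β _ => ?_
    simp only [Equiv.coe_toEmbedding, Equiv.symm_apply_apply]
    congr 1
    rw [← Equiv.prod_comp (ren k N) (fun i => (Sum.elim x y : Fin k ⊕ Fin N → ℂ) i ^ β i)]
    refine Finset.prod_congr rfl fun i _ => ?_
    rw [ren_elim, renE_apply]) hfin

end Pool.Agent.R424.MP
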